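import Pool.Agent.Y57.HS.Traj

/-!
# Trajectories of generalised Collatz maps at the values of polynomials at integers obtained by few changes of digits:
consequences
-/

set_option autoImplicit false

namespace Pool.Agent.Y57.HS

open Finset Filter Polynomial
open Pool.Agent.Y927.GP Pool.Agent.H319R2.M
open Pool.Agent.TH894.SM (change change_eq change_lt)

/-- the law for exponentially many steps -/
theorem traj_exp {g : GM} {b : ℤ → ℤ} {e : ℤ → ℕ} {C : Finset (ℤ × ℕ)} {ρ : ℤ × ℕ → ℝ} (hf : g.Fac b e)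
    (hC : g.Cls e C ρ) {f : ℤ[X]} (hdeg : 1 ≤ f.natDegree) (q : ℕ) (hq : 2 ≤ q) (hcop : Nat.Coprime q g.d)
    {ε : ℝ} (hε : 0 < ε) (H : ℝ) : ∃ c δ : ℝ, 0 < c ∧ 0 < δ ∧ ∃ s₀ : ℕ, ∀ s K : ℕ, s₀ ≤ s → 2 * s ≤ K →
    ∀ N : ℕ, N < q ^ K → ∀ φ : ℕ → ℕ, (∀ j, φ j < q ∧ φ j ≠ N / q ^ j % q) →
    ∀ A ⊆ powersetCard s (range K), (∀ S ∈ A, f.eval ((change q K N φ S : ℕ) : ℤ) ∈ g.SC C ∧
      ¬ (Real.exp (c * s) ^ H ≤ |((f.eval ((change q K N φ S : ℕ) : ℤ) : ℤ) : ℝ)| ∧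
        Typ g (mu g C ρ) ε (Real.exp (c * s)) (f.eval ((change q K N φ S : ℕ) : ℤ)))) →
    (A.card : ℝ) ≤ Real.exp (-(δ * s)) * (K.choose s : ℝ) := by
  obtain ⟨c, δ, hc, hδ, y₀, h⟩ := traj hf hC hdeg q hq hcop hε H
  have hev : ∀ᶠ s : ℕ in atTop, (y₀ : ℝ) + 1 ≤ Real.exp (c * s) ∧ (2 : ℝ) ^ δ ≤ Real.exp (c * δ / 2 * s) := by
    have h1 : Tendsto (fun s : ℕ => Real.exp (c * s)) atTop atTop :=
      Real.tendsto_exp_atTop.comp (tendsto_natCast_atTop_atTop.const_mul_atTop hc)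
    have h2 : Tendsto (fun s : ℕ => Real.exp (c * δ / 2 * s)) atTop atTop :=
      Real.tendsto_exp_atTop.comp (tendsto_natCast_atTop_atTop.const_mul_atTop (by positivity))
    filter_upwards [h1.eventually (eventually_ge_atTop _), h2.eventually (eventually_ge_atTop _)] with s a1 a2
    exact ⟨a1, a2⟩
  obtain ⟨s₀, hs₀⟩ := eventually_atTop.1 hev
  refine ⟨c, c * δ / 2, hc, by positivity, s₀, fun s K hs hsK N hN φ hφ A hA hbad => ?_⟩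
  obtain ⟨h1, h2⟩ := hs₀ s hs
  have hE1 : 1 ≤ Real.exp (c * s) := Real.one_le_exp (by positivity)
  set y := ⌊Real.exp (c * s)⌋₊ with hy
  have hyle : (y : ℝ) ≤ Real.exp (c * s) := Nat.floor_le (by positivity)
  have hylt : Real.exp (c * s) < y + 1 := Nat.lt_floor_add_one _
  have hy0 : y₀ ≤ y := by
    rw [hy]
    apply Nat.le_floor
    linarith
  have hy1 : (1 : ℝ) ≤ y := by
    have : 1 ≤ y := by
      rw [hy]
      apply Nat.le_floor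
      simpa using hE1
    exact_mod_cast this
  have h3 := h s K y hsK hy0 N hN φ hφ A hA (fun S hS => ⟨(hbad S hS).1, Real.exp (c * s), hyle, le_rfl, (hbad S hS).2⟩)
  refine h3.trans ?_
  apply mul_le_mul_of_nonneg_right _ (Nat.cast_nonneg _)
  have h4 : Real.exp (c * s) / 2 ≤ y := by linarith
  have h5 : (y : ℝ) ^ (-δ) ≤ (Real.exp (c * s) / 2) ^ (-δ) :=
    Real.rpow_le_rpow_of_nonpos (by positivity) h4 (by linarith)
  refine h5.trans ?_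
  rw [Real.div_rpow (by positivity) (by norm_num), Real.rpow_neg (by norm_num : (0 : ℝ) ≤ 2), div_inv_eq_mul, ← Real.exp_mul]
  calc Real.exp (c * s * -δ) * 2 ^ δ ≤ Real.exp (c * s * -δ) * Real.exp (c * δ / 2 * s) :=
        mul_le_mul_of_nonneg_left h2 (Real.exp_pos _).le
    _ = Real.exp (-(c * δ / 2 * s)) := by
        rw [← Real.exp_add]
        congr 1
        ring

/-- Contracting classes: the trajectory comes down. -/
theorem drop {g : GM} {b : ℤ → ℤ} {e : ℤ → ℕ} {C : Finset (ℤ × ℕ)} {ρ : ℤ × ℕ → ℝ} (hf : g.Fac b e)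
    (hC : g.Cls e C ρ) (hμ : mu g C ρ < 0) {f : ℤ[X]} (hdeg : 1 ≤ f.natDegree) (q : ℕ) (hq : 2 ≤ q)
    (hcop : Nat.Coprime q g.d) : ∃ c c₂ δ : ℝ, 0 < c ∧ 0 < c₂ ∧ 0 < δ ∧ ∃ s₀ : ℕ, ∀ s K : ℕ, s₀ ≤ s → 2 * s ≤ K →
    ∀ N : ℕ, N < q ^ K → ∀ φ : ℕ → ℕ, (∀ j, φ j < q ∧ φ j ≠ N / q ^ j % q) →
    ∀ A ⊆ powersetCard s (range K), (∀ S ∈ A, f.eval ((change q K N φ S : ℕ) : ℤ) ∈ g.SC C ∧
      ¬ (Real.exp (c * s) ≤ |((f.eval ((change q K N φ S : ℕ) : ℤ) : ℤ) : ℝ)| ∧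
        ∃ k : ℕ, (k : ℝ) ≤ c * s / Real.log g.d ∧ |((g.T^[k] (f.eval ((change q K N φ S : ℕ) : ℤ)) : ℤ) : ℝ)| ≤
          Real.exp (-(c₂ * s)) * |((f.eval ((change q K N φ S : ℕ) : ℤ) : ℤ) : ℝ)|)) →
    (A.card : ℝ) ≤ Real.exp (-(δ * s)) * (K.choose s : ℝ) := by
  have hd2 := g.two_le
  have hd1 : (1 : ℝ) < g.d := by have := g.dr; linarith
  have hd0 : (0 : ℝ) < g.d := by linarith
  have hL : 0 < Real.log g.d := Real.log_pos hd1
  obtain ⟨μ, hμdef⟩ : ∃ μ, μ = mu g C ρ := ⟨_, rfl⟩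
  rw [← hμdef] at hμ
  obtain ⟨c, δ, hc, hδ, s₀, h⟩ := traj_exp hf hC hdeg q hq hcop (ε := -μ / (2 * Real.log g.d))
    (by apply div_pos <;> linarith) 1
  rw [← hμdef] at h
  have hev : ∀ᶠ s : ℕ in atTop, -μ ≤ c * (-μ) / (4 * Real.log g.d) * s := by
    have h2 : Tendsto (fun s : ℕ => c * (-μ) / (4 * Real.log g.d) * (s : ℝ)) atTop atTop :=
      tendsto_natCast_atTop_atTop.const_mul_atTop (by
        apply div_pos
        · exact mul_pos hc (by linarith)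
        · positivity)
    exact h2.eventually (eventually_ge_atTop _)
  obtain ⟨s₁, hs₁⟩ := eventually_atTop.1 hev
  refine ⟨c, c * (-μ) / (4 * Real.log g.d), δ, hc, ?_, hδ, max s₀ s₁, fun s K hs hsK N hN φ hφ A hA hbad => ?_⟩
  · apply div_pos
    · exact mul_pos hc (by linarith)
    · positivity
  apply h s K ((le_max_left _ _).trans hs) hsK N hN φ hφ A hA
  intro S hS
  obtain ⟨h1, h2⟩ := hbad S hS
  refine ⟨h1, fun h3 => h2 ?_⟩
  rw [Real.rpow_one] at h3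
  obtain ⟨h4, h5⟩ := h3
  have hcs : 0 ≤ c * s / Real.log g.d := by positivity
  have hfl := Nat.floor_le hcs
  have hfl2 := Nat.lt_floor_add_one (c * s / Real.log g.d)
  refine ⟨h4, ⌊c * s / Real.log g.d⌋₊, hfl, ?_⟩
  set k := ⌊c * s / Real.log g.d⌋₊ with hk
  have h6 := (h5 k (by
    have h7 : (k : ℝ) * Real.log g.d ≤ c * s := by
      rwa [le_div_iff₀ hL] at hfl
    calc (g.d : ℝ) ^ k = Real.exp (k * Real.log g.d) := by
          rw [Real.exp_nat_mul, Real.exp_log hd0]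
      _ ≤ Real.exp (c * s) := Real.exp_le_exp.2 h7)).2
  refine h6.trans ?_
  apply mul_le_mul_of_nonneg_right _ (abs_nonneg _)
  rw [← Real.exp_mul, ← Real.exp_add]
  apply Real.exp_le_exp.2
  have h8 := hs₁ s ((le_max_right _ _).trans hs)
  have h9 : (k : ℝ) * μ ≤ (c * s / Real.log g.d - 1) * μ := by
    apply mul_le_mul_of_nonpos_right _ hμ.le
    linarith
  have h10 : c * s * (-μ / (2 * Real.log g.d)) + (c * s / Real.log g.d - 1) * μ =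
      -(2 * (c * (-μ) / (4 * Real.log g.d) * s)) - μ := by
    field_simp
    ring
  linarith

/-- Expanding classes: the trajectory goes up. -/
theorem rise {g : GM} {b : ℤ → ℤ} {e : ℤ → ℕ} {C : Finset (ℤ × ℕ)} {ρ : ℤ × ℕ → ℝ} (hf : g.Fac b e)
    (hC : g.Cls e C ρ) (hμ : 0 < mu g C ρ) {f : ℤ[X]} (hdeg : 1 ≤ f.natDegree) (q : ℕ) (hq : 2 ≤ q)
    (hcop : Nat.Coprime q g.d) : ∃ c c₂ δ : ℝ, 0 < c ∧ 0 < c₂ ∧ 0 < δ ∧ ∃ s₀ : ℕ, ∀ s K : ℕ, s₀ ≤ s → 2 * s ≤ K →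
    ∀ N : ℕ, N < q ^ K → ∀ φ : ℕ → ℕ, (∀ j, φ j < q ∧ φ j ≠ N / q ^ j % q) →
    ∀ A ⊆ powersetCard s (range K), (∀ S ∈ A, f.eval ((change q K N φ S : ℕ) : ℤ) ∈ g.SC C ∧
      ¬ (Real.exp (c * s) ≤ |((f.eval ((change q K N φ S : ℕ) : ℤ) : ℤ) : ℝ)| ∧
        ∃ k : ℕ, (k : ℝ) ≤ c * s / Real.log g.d ∧ Real.exp (c₂ * s) * |((f.eval ((change q K N φ S : ℕ) : ℤ) : ℤ) : ℝ)| ≤
          |((g.T^[k] (f.eval ((change q K N φ S : ℕ) : ℤ)) : ℤ) : ℝ)|)) →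
    (A.card : ℝ) ≤ Real.exp (-(δ * s)) * (K.choose s : ℝ) := by
  have hd2 := g.two_le
  have hd1 : (1 : ℝ) < g.d := by have := g.dr; linarith
  have hd0 : (0 : ℝ) < g.d := by linarith
  have hL : 0 < Real.log g.d := Real.log_pos hd1
  obtain ⟨μ, hμdef⟩ : ∃ μ, μ = mu g C ρ := ⟨_, rfl⟩
  rw [← hμdef] at hμ
  obtain ⟨c, δ, hc, hδ, s₀, h⟩ := traj_exp hf hC hdeg q hq hcop (ε := μ / (2 * Real.log g.d))
    (by positivity) 1
  rw [← hμdef] at h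
  have hev : ∀ᶠ s : ℕ in atTop, μ ≤ c * μ / (4 * Real.log g.d) * s := by
    have h2 : Tendsto (fun s : ℕ => c * μ / (4 * Real.log g.d) * (s : ℝ)) atTop atTop :=
      tendsto_natCast_atTop_atTop.const_mul_atTop (by positivity)
    exact h2.eventually (eventually_ge_atTop _)
  obtain ⟨s₁, hs₁⟩ := eventually_atTop.1 hev
  refine ⟨c, c * μ / (4 * Real.log g.d), δ, hc, by positivity, hδ, max s₀ s₁, fun s K hs hsK N hN φ hφ A hA hbad => ?_⟩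
  apply h s K ((le_max_left _ _).trans hs) hsK N hN φ hφ A hA
  intro S hS
  obtain ⟨h1, h2⟩ := hbad S hS
  refine ⟨h1, fun h3 => h2 ?_⟩
  rw [Real.rpow_one] at h3
  obtain ⟨h4, h5⟩ := h3
  have hcs : 0 ≤ c * s / Real.log g.d := by positivity
  have hfl := Nat.floor_le hcs
  have hfl2 := Nat.lt_floor_add_one (c * s / Real.log g.d)
  refine ⟨h4, ⌊c * s / Real.log g.d⌋₊, hfl, ?_⟩
  set k := ⌊c * s / Real.log g.d⌋₊ with hk
  have h6 := (h5 k (by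
    have h7 : (k : ℝ) * Real.log g.d ≤ c * s := by
      rwa [le_div_iff₀ hL] at hfl
    calc (g.d : ℝ) ^ k = Real.exp (k * Real.log g.d) := by
          rw [Real.exp_nat_mul, Real.exp_log hd0]
      _ ≤ Real.exp (c * s) := Real.exp_le_exp.2 h7)).1
  refine le_trans ?_ h6
  apply mul_le_mul_of_nonneg_right _ (abs_nonneg _)
  rw [← Real.exp_mul, ← Real.exp_add]
  apply Real.exp_le_exp.2
  have h8 := hs₁ s ((le_max_right _ _).trans hs)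
  have h9 : (c * s / Real.log g.d - 1) * μ ≤ (k : ℝ) * μ := by
    apply mul_le_mul_of_nonneg_right _ hμ.le
    linarith
  have h10 : c * s * -(μ / (2 * Real.log g.d)) + (c * s / Real.log g.d - 1) * μ =
      2 * (c * μ / (4 * Real.log g.d) * s) - μ := by
    field_simp
    ring
  linarith

/-- the sizes of the values -/
lemma size_up (q : ℕ) (hq : 2 ≤ q) (f : ℤ[X]) (c : ℝ) (hc : 0 < c) (B : ℝ) : ∃ B' : ℝ, 0 < B' ∧ ∃ s₀ : ℕ, ∀ s K : ℕ, s₀ ≤ s →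
    (K : ℝ) ≤ B * s → ∀ N : ℕ, ∀ φ : ℕ → ℕ, (∀ j, φ j < q) → ∀ S : Finset ℕ,
    Real.exp (c * s) ≤ |((f.eval ((change q K N φ S : ℕ) : ℤ) : ℤ) : ℝ)| →
    |((f.eval ((change q K N φ S : ℕ) : ℤ) : ℤ) : ℝ)| ≤ Real.exp (B' * s) := by
  obtain ⟨C, hC, h⟩ := growth_up f
  have hlq : 0 < Real.log q := Real.log_pos (by exact_mod_cast (by omega : 1 < q))
  have hev : ∀ᶠ s : ℕ in atTop, |((f.eval 0 : ℤ) : ℝ)| + 1 ≤ Real.exp (c * s) ∧ 1 ≤ s := by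
    have h1 : Tendsto (fun s : ℕ => Real.exp (c * s)) atTop atTop :=
      Real.tendsto_exp_atTop.comp (tendsto_natCast_atTop_atTop.const_mul_atTop hc)
    filter_upwards [h1.eventually (eventually_ge_atTop _), eventually_ge_atTop 1] with s a1 a2
    exact ⟨a1, a2⟩
  obtain ⟨s₀, hs₀⟩ := eventually_atTop.1 hev
  refine ⟨Real.log C + |B| * Real.log q * f.natDegree + 1, by
    have := Real.log_nonneg hC
    positivity, s₀, fun s K hs hK N φ hφ S hlow => ?_⟩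
  obtain ⟨h1, h2⟩ := hs₀ s hs
  have h2r : (1 : ℝ) ≤ s := by exact_mod_cast h2
  have hn0 : change q K N φ S ≠ 0 := by
    intro h0
    rw [h0] at hlow
    push_cast at hlow
    linarith
  have hn1 : (1 : ℝ) ≤ (change q K N φ S : ℕ) := by exact_mod_cast Nat.one_le_iff_ne_zero.2 hn0
  have h3 := h ((change q K N φ S : ℕ) : ℤ) (by
    rw [Int.cast_natCast, abs_of_nonneg (by positivity)]
    exact hn1)
  rw [Int.cast_natCast, abs_of_nonneg (by positivity : (0 : ℝ) ≤ ((change q K N φ S : ℕ) : ℝ))] at h3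
  refine h3.trans ?_
  have h4 : ((change q K N φ S : ℕ) : ℝ) ≤ Real.exp (|B| * Real.log q * s) := by
    have h5 := change_lt q K N (by omega) φ hφ S
    have h6 : ((change q K N φ S : ℕ) : ℝ) ≤ (q : ℝ) ^ K := by exact_mod_cast h5.le
    refine h6.trans ?_
    calc (q : ℝ) ^ K = Real.exp (K * Real.log q) := by
          rw [Real.exp_nat_mul, Real.exp_log (by positivity)]
      _ ≤ Real.exp (|B| * Real.log q * s) := by
          apply Real.exp_le_exp.2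
          have h7 : (K : ℝ) ≤ |B| * s := hK.trans (mul_le_mul_of_nonneg_right (le_abs_self B) (by linarith))
          nlinarith
  calc C * ((change q K N φ S : ℕ) : ℝ) ^ f.natDegree
      ≤ C * (Real.exp (|B| * Real.log q * s)) ^ f.natDegree := by gcongr
    _ = Real.exp (Real.log C) * Real.exp (f.natDegree * (|B| * Real.log q * s)) := by
        rw [Real.exp_log (by linarith), Real.exp_nat_mul]
    _ = Real.exp (Real.log C + f.natDegree * (|B| * Real.log q * s)) := by rw [Real.exp_add]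
    _ ≤ _ := by
        apply Real.exp_le_exp.2
        have h5 := Real.log_nonneg hC
        nlinarith

/-- from exponentials to powers -/
lemma exp_to_pow {c₂ B' : ℝ} (hc₂ : 0 < c₂) (hB' : 0 < B') {s : ℕ} {G : ℝ} (hG : 0 < G) (h : G ≤ Real.exp (B' * s)) :
    Real.exp (-(c₂ * s)) * G ≤ G ^ (1 - c₂ / B') ∧ G ^ (1 + c₂ / B') ≤ Real.exp (c₂ * s) * G := by
  have h1 : G ^ (c₂ / B') ≤ Real.exp (c₂ * s) := by
    calc G ^ (c₂ / B') ≤ (Real.exp (B' * s)) ^ (c₂ / B') := Real.rpow_le_rpow hG.le h (by positivity)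
      _ = Real.exp (c₂ * s) := by
          rw [← Real.exp_mul]
          congr 1
          field_simp
  constructor
  · rw [Real.rpow_sub hG, Real.rpow_one, Real.exp_neg, mul_comm, ← div_eq_mul_inv]
    exact div_le_div_of_nonneg_left hG.le (by positivity) h1
  · rw [Real.rpow_add hG, Real.rpow_one, mul_comm]
    exact mul_le_mul_of_nonneg_right h1 hG.le

theorem drop_pow {g : GM} {b : ℤ → ℤ} {e : ℤ → ℕ} {C : Finset (ℤ × ℕ)} {ρ : ℤ × ℕ → ℝ} (hf : g.Fac b e)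
    (hC : g.Cls e C ρ) (hμ : mu g C ρ < 0) {f : ℤ[X]} (hdeg : 1 ≤ f.natDegree) (q : ℕ) (hq : 2 ≤ q)
    (hcop : Nat.Coprime q g.d) (B : ℝ) : ∃ η δ : ℝ, 0 < η ∧ 0 < δ ∧ ∃ s₀ : ℕ, ∀ s K : ℕ, s₀ ≤ s → 2 * s ≤ K → (K : ℝ) ≤ B * s →
    ∀ N : ℕ, N < q ^ K → ∀ φ : ℕ → ℕ, (∀ j, φ j < q ∧ φ j ≠ N / q ^ j % q) →
    ∀ A ⊆ powersetCard s (range K), (∀ S ∈ A, f.eval ((change q K N φ S : ℕ) : ℤ) ∈ g.SC C ∧
      ∀ k : ℕ, |((f.eval ((change q K N φ S : ℕ) : ℤ) : ℤ) : ℝ)| ^ (1 - η) <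
        |((g.T^[k] (f.eval ((change q K N φ S : ℕ) : ℤ)) : ℤ) : ℝ)|) →
    (A.card : ℝ) ≤ Real.exp (-(δ * s)) * (K.choose s : ℝ) := by
  obtain ⟨c, c₂, δ, hc, hc₂, hδ, s₀, h⟩ := drop hf hC hμ hdeg q hq hcop
  obtain ⟨B', hB', s₁, h'⟩ := size_up q hq f c hc B
  refine ⟨c₂ / B', δ, by positivity, hδ, max s₀ s₁, fun s K hs hsK hKB N hN φ hφ A hA hbad => ?_⟩
  apply h s K ((le_max_left _ _).trans hs) hsK N hN φ hφ A hA
  intro S hS
  obtain ⟨h1, h2⟩ := hbad S hS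
  refine ⟨h1, fun h3 => ?_⟩
  obtain ⟨h4, k, -, h5⟩ := h3
  have h6 := h' s K ((le_max_right _ _).trans hs) hKB N φ (fun j => (hφ j).1) S h4
  have hG : 0 < |((f.eval ((change q K N φ S : ℕ) : ℤ) : ℤ) : ℝ)| := lt_of_lt_of_le (Real.exp_pos _) h4
  exact absurd (h5.trans (exp_to_pow hc₂ hB' hG h6).1) (not_le.2 (h2 k))

theorem rise_pow {g : GM} {b : ℤ → ℤ} {e : ℤ → ℕ} {C : Finset (ℤ × ℕ)} {ρ : ℤ × ℕ → ℝ} (hf : g.Fac b e)
    (hC : g.Cls e C ρ) (hμ : 0 < mu g C ρ) {f : ℤ[X]} (hdeg : 1 ≤ f.natDegree) (q : ℕ) (hq : 2 ≤ q)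
    (hcop : Nat.Coprime q g.d) (B : ℝ) : ∃ η δ : ℝ, 0 < η ∧ 0 < δ ∧ ∃ s₀ : ℕ, ∀ s K : ℕ, s₀ ≤ s → 2 * s ≤ K → (K : ℝ) ≤ B * s →
    ∀ N : ℕ, N < q ^ K → ∀ φ : ℕ → ℕ, (∀ j, φ j < q ∧ φ j ≠ N / q ^ j % q) →
    ∀ A ⊆ powersetCard s (range K), (∀ S ∈ A, f.eval ((change q K N φ S : ℕ) : ℤ) ∈ g.SC C ∧
      ∀ k : ℕ, |((g.T^[k] (f.eval ((change q K N φ S : ℕ) : ℤ)) : ℤ) : ℝ)| <
        |((f.eval ((change q K N φ S : ℕ) : ℤ) : ℤ) : ℝ)| ^ (1 + η)) →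
    (A.card : ℝ) ≤ Real.exp (-(δ * s)) * (K.choose s : ℝ) := by
  obtain ⟨c, c₂, δ, hc, hc₂, hδ, s₀, h⟩ := rise hf hC hμ hdeg q hq hcop
  obtain ⟨B', hB', s₁, h'⟩ := size_up q hq f c hc B
  refine ⟨c₂ / B', δ, by positivity, hδ, max s₀ s₁, fun s K hs hsK hKB N hN φ hφ A hA hbad => ?_⟩
  apply h s K ((le_max_left _ _).trans hs) hsK N hN φ hφ A hA
  intro S hS
  obtain ⟨h1, h2⟩ := hbad S hS
  refine ⟨h1, fun h3 => ?_⟩
  obtain ⟨h4, k, -, h5⟩ := h3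
  have h6 := h' s K ((le_max_right _ _).trans hs) hKB N φ (fun j => (hφ j).1) S h4
  have hG : 0 < |((f.eval ((change q K N φ S : ℕ) : ℤ) : ℤ) : ℝ)| := lt_of_lt_of_le (Real.exp_pos _) h4
  exact absurd ((exp_to_pow hc₂ hB' hG h6).2.trans h5) (not_le.2 (h2 k))

end Pool.Agent.Y57.HS
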