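import Pool.Agent.TH894.NE3

/-!
# Residues modulo arbitrary integers coprime to the base for the integers obtained by changing few digits

For every modulus `Q ≤ exp (c r)` coprime to the base `b` (small prime factors of `Q` are allowed) a set `R` of residue classes
modulo `Q` contains at most the proportion `Q ^ δ |R| / Q` of the integers obtained by changing `r` digits in base `b`.
-/

set_option autoImplicit false

namespace Pool.Agent.Y57.HS

open Finset Filter
open Pool.Agent.TH894.ND Pool.Agent.TH894.NE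
open Pool.Agent.TH894.SM (change change_eq)

/-- few frequencies have few good places, also if the factor is not coprime to the modulus -/
lemma bad_count' (b L Z E n Q T : ℕ) (hZ : 2 ≤ Z) (hE : 1 ≤ E) (hQ : 1 ≤ Q) (hn : 1 ≤ n) (hnT : n ≤ T) (hL1 : 1 ≤ L)
    (hD : Q * Q ≤ Z ^ n) (hZQ : Nat.Coprime Z Q) :
    (((range Q).filter (fun k => 4 * (E * (Ig L Z Q T k).card) < T)).card : ℝ) ≤
      L * (2 * (3 ^ n * (Z : ℝ) ^ ((n : ℝ) / E))) := by
  classical
  have h1 := bad_count 1 Z E n Q Q T hZ hE hQ hn hnT hD (Nat.coprime_one_left Q) hZQ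
  have hI : ∀ k, Ig L Z Q T k = Ig 1 Z Q T (L * k % Q) := by
    intro k
    unfold Ig
    apply filter_congr
    intro i _
    rw [← Gp_mod Z Q (L * Z ^ i * k), ← Gp_mod Z Q (1 * Z ^ i * (L * k % Q))]
    have : L * Z ^ i * k % Q = 1 * Z ^ i * (L * k % Q) % Q := by
      rw [one_mul, Nat.mul_mod_mod]
      congr 1
      ring
    rw [this]
  have h2 : ((range Q).filter (fun k => 4 * (E * (Ig L Z Q T k).card) < T)).card ≤
      (((Fr Q Q).filter (fun k => 4 * (E * (Ig 1 Z Q T k).card) < T)) ×ˢ range L).card := by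
    apply card_le_card_of_injOn (fun k => (L * k % Q, L * k / Q))
    · intro k hk
      rw [mem_coe, mem_filter, mem_range] at hk
      rw [mem_coe, mem_product, mem_filter, mem_range]
      refine ⟨⟨?_, ?_⟩, ?_⟩
      · unfold Fr
        rw [mem_filter, mem_range]
        exact ⟨Nat.mod_lt _ (by omega), Q, hQ, le_rfl, Dvd.intro_left _ rfl⟩
      · show 4 * (E * (Ig 1 Z Q T (L * k % Q)).card) < T
        rw [← hI]
        exact hk.2
      · show L * k / Q < L
        rw [Nat.div_lt_iff_lt_mul (by omega)]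
        exact Nat.mul_lt_mul_of_pos_left hk.1 (by omega)
    · intro k _ k' _ h
      simp only [Prod.mk.injEq] at h
      have e1 := Nat.div_add_mod (L * k) Q
      have e2 := Nat.div_add_mod (L * k') Q
      rw [h.1, h.2, e2] at e1
      exact (Nat.eq_of_mul_eq_mul_left (by omega) e1).symm
  rw [card_product, card_range] at h2
  have h3 : (((range Q).filter (fun k => 4 * (E * (Ig L Z Q T k).card) < T)).card : ℝ) ≤
      (((Fr Q Q).filter (fun k => 4 * (E * (Ig 1 Z Q T k).card) < T)).card : ℝ) * L := by exact_mod_cast h2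
  refine h3.trans ?_
  rw [mul_comm (L : ℝ)]
  exact mul_le_mul_of_nonneg_right h1 (Nat.cast_nonneg _)

/-- **Residues of the integers obtained by changing few digits.** -/
theorem law (b : ℕ) (hb : 2 ≤ b) (δ : ℝ) (hδ : 0 < δ) : ∃ c : ℝ, 0 < c ∧ ∃ x₀ : ℕ,
    ∀ r K Q : ℕ, 2 * r ≤ K → x₀ ≤ Q → Real.log Q ≤ c * r → Nat.Coprime b Q →
    ∀ N : ℕ, N < b ^ K → ∀ f : ℕ → ℕ, (∀ j, f j < b ∧ f j ≠ N / b ^ j % b) →
    ∀ R : Finset ℕ, R ⊆ range Q →
    (((powersetCard r (range K)).filter (fun S => change b K N f S % Q ∈ R)).card : ℝ) ≤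
      (Q : ℝ) ^ δ * ((R.card : ℝ) / Q) * (K.choose r : ℝ) := by
  classical
  obtain ⟨s, E, hs, hE, x₁, hx₁⟩ := par_bad b 1 hb le_rfl (δ / 4) (by positivity)
  obtain ⟨Z, hZ⟩ : ∃ Z, Z = b ^ (2 * s) := ⟨_, rfl⟩
  obtain ⟨L, hL⟩ : ∃ L, L = (b * b).factorial := ⟨_, rfl⟩
  have hsr : (1 : ℝ) ≤ s := by exact_mod_cast hs
  have hEr : (1 : ℝ) ≤ E := by exact_mod_cast hE
  obtain ⟨d₀, hd₀⟩ : ∃ d₀ : ℝ, d₀ = 1 / (((b * b).factorial : ℝ) * ((b ^ (2 * s) : ℕ) : ℝ)) ^ 2 := ⟨_, rfl⟩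
  have hd₀0 : 0 < d₀ := by
    rw [hd₀]
    have h1 : (0 : ℝ) < ((b * b).factorial : ℝ) := by exact_mod_cast Nat.factorial_pos _
    have h2 : (0 : ℝ) < ((b ^ (2 * s) : ℕ) : ℝ) := by exact_mod_cast Nat.pow_pos (by omega)
    positivity
  obtain ⟨c₁, hc₁⟩ : ∃ c₁ : ℝ, c₁ = d₀ / (16 * s * E) := ⟨_, rfl⟩
  have hc₁0 : 0 < c₁ := by rw [hc₁]; positivity
  obtain ⟨c, hc⟩ : ∃ c : ℝ, c = min (c₁ / 4) (1 / (16 * s)) := ⟨_, rfl⟩
  have hc0 : 0 < c := by rw [hc]; exact lt_min (by positivity) (by positivity)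
  have hcc1 : c ≤ c₁ / 4 := by rw [hc]; exact min_le_left _ _
  have hcc2 : c ≤ 1 / (16 * s) := by rw [hc]; exact min_le_right _ _
  have hev : ∀ᶠ r : ℕ in atTop, (4 * (r : ℝ) + 2) ≤ Real.exp (c₁ / 2 * r) := by
    have h1 : Tendsto (fun y : ℝ => Real.exp (c₁ / 2 * y) / y ^ 1) atTop atTop :=
      tendsto_exp_mul_div_rpow_atTop 1 (c₁ / 2) (by positivity) |>.congr' (by
        filter_upwards [eventually_gt_atTop 0] with y hy
        rw [Real.rpow_one, pow_one])
    have h2 := (h1.comp tendsto_natCast_atTop_atTop).eventually (eventually_ge_atTop (6 : ℝ))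
    filter_upwards [h2, eventually_ge_atTop 1] with r hr hr1
    have h3 : (1 : ℝ) ≤ r := by exact_mod_cast hr1
    simp only [Function.comp_apply, pow_one] at hr
    rw [le_div_iff₀ (by linarith)] at hr
    linarith
  obtain ⟨r₀, hr₀⟩ := eventually_atTop.1 hev
  -- large `Q`
  have hevx : ∀ᶠ x : ℕ in atTop, x₁ ≤ x ∧ 2 ≤ x ∧ c * ((r₀ : ℝ) + 8 * s + 1) ≤ Real.log x ∧
      1 + (L : ℝ) ≤ (x : ℝ) ^ (δ / 2) ∧ c * (32 * s) ≤ Real.log x := by
    have h1 : Tendsto (fun x : ℕ => Real.log (x : ℝ)) atTop atTop :=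
      Real.tendsto_log_atTop.comp tendsto_natCast_atTop_atTop
    have h2 : Tendsto (fun x : ℕ => (x : ℝ) ^ (δ / 2)) atTop atTop :=
      (tendsto_rpow_atTop (by positivity)).comp tendsto_natCast_atTop_atTop
    filter_upwards [eventually_ge_atTop x₁, eventually_ge_atTop 2, h1.eventually (eventually_ge_atTop _),
      h2.eventually (eventually_ge_atTop _), h1.eventually (eventually_ge_atTop _)] with x a1 a2 a3 a4 a5
    exact ⟨a1, a2, a3, a4, a5⟩
  obtain ⟨x₀, hx₀⟩ := eventually_atTop.1 hevx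
  refine ⟨c, hc0, x₀, fun r K Q hrK hQ hlog hcop N hN f hf R hR => ?_⟩
  obtain ⟨hQx₁, hQ2, hQr, hQL, hQs⟩ := hx₀ Q hQ
  have hQ1 : 1 ≤ Q := by omega
  have hQr0 : (0 : ℝ) < Q := by exact_mod_cast (by omega : 0 < Q)
  have hQr1 : (1 : ℝ) ≤ Q := by exact_mod_cast hQ1
  have hrr : (r₀ : ℝ) + 8 * s + 1 ≤ r := by
    have := hQr.trans hlog
    exact le_of_mul_le_mul_left this hc0
  have hrr₀ : r₀ ≤ r := by
    have : (r₀ : ℝ) ≤ r := by linarith
    exact_mod_cast this
  have hr8 : 8 * s ≤ r := by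
    have h0 : (0 : ℝ) ≤ r₀ := Nat.cast_nonneg _
    have : (8 : ℝ) * s ≤ r := by linarith
    exact_mod_cast this
  have hr1 : 1 ≤ r := by omega
  have hexp := hr₀ r hrr₀
  obtain ⟨n, hn1, hn2, hn3, hn4⟩ := hx₁ Q hQx₁
  have hlogQ : 0 ≤ Real.log Q := Real.log_nonneg hQr1
  -- `n ≤ T`
  have hnT : n ≤ K / (2 * s) := by
    rw [Nat.le_div_iff_mul_le (by omega)]
    have h1 : (n : ℝ) ≤ 4 * (c * r) + 2 := by
      have : (4 : ℝ) * (1 : ℕ) * Real.log Q ≤ 4 * (c * r) := by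
        push_cast
        nlinarith
      linarith
    have h2 : c * r ≤ r / (16 * s) := by
      have hr0 : (0 : ℝ) ≤ r := Nat.cast_nonneg _
      calc c * r ≤ 1 / (16 * s) * r := mul_le_mul_of_nonneg_right hcc2 hr0
        _ = r / (16 * s) := by ring
    have h3 : (n : ℝ) * (2 * s) ≤ K := by
      have hK : (2 : ℝ) * r ≤ K := by exact_mod_cast hrK
      have hr8' : (8 : ℝ) * s ≤ r := by exact_mod_cast hr8
      have hs0 : (0 : ℝ) < s := by linarith
      calc (n : ℝ) * (2 * s) ≤ (4 * (r / (16 * s)) + 2) * (2 * s) := by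
            apply mul_le_mul_of_nonneg_right _ (by positivity)
            linarith
        _ = r / 2 + 4 * s := by field_simp; ring
        _ ≤ K := by linarith
    exact_mod_cast h3
  have hZ2 : 2 ≤ Z := by
    rw [hZ]
    calc 2 ≤ b := hb
      _ = b ^ 1 := (pow_one b).symm
      _ ≤ b ^ (2 * s) := Nat.pow_le_pow_right (by omega) (by omega)
  have hZQ : Nat.Coprime Z Q := by rw [hZ]; exact Nat.Coprime.pow_left _ hcop
  have hL1 : 1 ≤ L := by rw [hL]; exact Nat.factorial_pos _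
  obtain ⟨T, hT⟩ : ∃ T, T = K / (2 * s) := ⟨_, rfl⟩
  rw [← hT] at hnT
  have hbad := bad_count' b L Z E n Q T hZ2 hE hQ1 hn1 hnT hL1 (by
    rw [← hZ] at hn3
    refine le_trans ?_ hn3
    calc Q * Q = Q ^ 2 := by ring
      _ ≤ Q ^ 4 := Nat.pow_le_pow_right hQ1 (by norm_num)
      _ = Q ^ (2 * 1) * Q ^ (2 * 1) := by ring) hZQ
  rw [← hZ] at hn4
  -- the expansion
  obtain ⟨H, hH⟩ : ∃ H : ℕ → ℝ, H = fun n => if n % Q ∈ R then 1 else 0 := ⟨_, rfl⟩
  have hper : ∀ n, H (n + Q) = H n := by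
    intro n
    rw [hH]
    simp only [Nat.add_mod_right]
  have hcf : ∀ k, ‖cf Q H k‖ ≤ (R.card : ℝ) / Q := by
    intro k
    unfold cf
    rw [norm_mul, norm_div, norm_one, Complex.norm_natCast]
    have h1 : ‖∑ n ∈ range Q, (H n : ℂ) * ee (-((k : ℝ) * n / Q))‖ ≤ R.card := by
      refine (norm_sum_le _ _).trans ?_
      have h2 : ∀ n ∈ range Q, ‖(H n : ℂ) * ee (-((k : ℝ) * n / Q))‖ = if n ∈ R then 1 else 0 := by
        intro n hn
        rw [mem_range] at hn
        rw [norm_mul, ee_norm, mul_one, hH]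
        simp only [Nat.mod_eq_of_lt hn]
        split_ifs <;> simp
      rw [sum_congr rfl h2, sum_ite_mem, inter_eq_right.2 hR, sum_const, nsmul_eq_mul, mul_one]
    calc 1 / (Q : ℝ) * _ ≤ 1 / (Q : ℝ) * R.card := mul_le_mul_of_nonneg_left h1 (by positivity)
      _ = _ := by ring
  have hcount : ((((powersetCard r (range K)).filter (fun S => change b K N f S % Q ∈ R)).card : ℝ) : ℂ) =
      ∑ k ∈ range Q, cf Q H k * ∑ S ∈ powersetCard r (range K), ee ((k : ℝ) * (change b K N f S : ℕ) / Q) := by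
    have h1 : ((((powersetCard r (range K)).filter (fun S => change b K N f S % Q ∈ R)).card : ℝ) : ℂ) =
        ∑ S ∈ powersetCard r (range K), ((H (change b K N f S) : ℝ) : ℂ) := by
      rw [card_filter]
      push_cast
      apply sum_congr rfl
      intro S _
      rw [hH]
    rw [h1]
    rw [sum_congr rfl (fun S _ => expand Q hQ1 H hper (change b K N f S)), sum_comm]
    apply sum_congr rfl
    intro k _
    rw [mul_sum]
  have hle : (((powersetCard r (range K)).filter (fun S => change b K N f S % Q ∈ R)).card : ℝ) ≤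
      ∑ k ∈ range Q, ((R.card : ℝ) / Q) * ‖∑ S ∈ powersetCard r (range K), ee ((k : ℝ) * (change b K N f S : ℕ) / Q)‖ := by
    have h1 : (((powersetCard r (range K)).filter (fun S => change b K N f S % Q ∈ R)).card : ℝ) =
        ‖((((powersetCard r (range K)).filter (fun S => change b K N f S % Q ∈ R)).card : ℝ) : ℂ)‖ := by
      rw [Complex.norm_real, Real.norm_of_nonneg (Nat.cast_nonneg _)]
    rw [h1, hcount]
    refine (norm_sum_le _ _).trans (sum_le_sum fun k _ => ?_)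
    rw [norm_mul]
    exact mul_le_mul_of_nonneg_right (hcf k) (norm_nonneg _)
  have hchoose : ((powersetCard r (range K)).card : ℝ) = (K.choose r : ℝ) := by
    rw [card_powersetCard, card_range]
  have htriv : ∀ k : ℕ, ‖∑ S ∈ powersetCard r (range K), ee ((k : ℝ) * (change b K N f S : ℕ) / Q)‖ ≤ (K.choose r : ℝ) := by
    intro k
    refine (norm_sum_le _ _).trans ?_
    rw [sum_congr rfl (fun S _ => ee_norm _), sum_const, nsmul_eq_mul, mul_one, hchoose]
  have hC0 : (0 : ℝ) ≤ (K.choose r : ℝ) := Nat.cast_nonneg _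
  have hR0 : (0 : ℝ) ≤ (R.card : ℝ) / Q := by positivity
  have hsplit : ∑ k ∈ range Q, ‖∑ S ∈ powersetCard r (range K), ee ((k : ℝ) * (change b K N f S : ℕ) / Q)‖ ≤
      L * (2 * (3 ^ n * (Z : ℝ) ^ ((n : ℝ) / E))) * (K.choose r : ℝ) + Q * (Real.exp (-(c₁ / 2 * r)) * (K.choose r : ℝ)) := by
    rw [← sum_filter_add_sum_filter_not (range Q) (fun k => 4 * (E * (Ig L Z Q T k).card) < T)]
    apply add_le_add
    · refine (sum_le_sum (fun k _ => htriv k)).trans ?_
      rw [sum_const, nsmul_eq_mul]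
      exact mul_le_mul_of_nonneg_right hbad hC0
    · have h1 : ∀ k ∈ (range Q).filter (fun k => ¬ 4 * (E * (Ig L Z Q T k).card) < T),
          ‖∑ S ∈ powersetCard r (range K), ee ((k : ℝ) * (change b K N f S : ℕ) / Q)‖ ≤
            Real.exp (-(c₁ / 2 * r)) * (K.choose r : ℝ) := by
        intro k hk
        rw [mem_filter] at hk
        have h2 := good_sum b s E hb hs hE d₀ c₁ hd₀ hc₁ r K hr1 hrK hr8 hexp N hN f hf Q hQ1 k (by
          rw [← hT, ← hL, ← hZ]
          exact not_lt.1 hk.2)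
        rw [hchoose] at h2
        exact h2
      refine (sum_le_sum h1).trans ?_
      rw [sum_const, nsmul_eq_mul]
      apply mul_le_mul_of_nonneg_right _ (by positivity)
      have h3 : ((range Q).filter (fun k => ¬ 4 * (E * (Ig L Z Q T k).card) < T)).card ≤ Q := by
        refine (card_filter_le _ _).trans ?_
        rw [card_range]
      exact_mod_cast h3
  rw [← mul_sum] at hle
  refine hle.trans ?_
  have hfin : L * (2 * (3 ^ n * (Z : ℝ) ^ ((n : ℝ) / E))) + Q * Real.exp (-(c₁ / 2 * r)) ≤ (Q : ℝ) ^ δ := by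
    have h1 : (Q : ℝ) * Real.exp (-(c₁ / 2 * r)) ≤ 1 := by
      have h2 : Real.log Q ≤ c₁ / 2 * r := by
        have hr0 : (0 : ℝ) ≤ r := Nat.cast_nonneg _
        nlinarith
      rw [Real.exp_neg, ← div_eq_mul_inv, div_le_one (Real.exp_pos _)]
      calc (Q : ℝ) = Real.exp (Real.log Q) := (Real.exp_log hQr0).symm
        _ ≤ _ := Real.exp_le_exp.2 h2
    have h3 : (L : ℝ) * (2 * (3 ^ n * (Z : ℝ) ^ ((n : ℝ) / E))) ≤ L * (Q : ℝ) ^ (δ / 2) := by
      apply mul_le_mul_of_nonneg_left _ (Nat.cast_nonneg _)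
      refine hn4.trans ?_
      exact Real.rpow_le_rpow_of_exponent_le hQr1 (by linarith)
    have h4 : (1 : ℝ) ≤ (Q : ℝ) ^ (δ / 2) := Real.one_le_rpow hQr1 (by positivity)
    have h5 : (Q : ℝ) ^ δ = (Q : ℝ) ^ (δ / 2) * (Q : ℝ) ^ (δ / 2) := by
      rw [← Real.rpow_add hQr0]
      congr 1
      ring
    rw [h5]
    have h6 : (L : ℝ) * (Q : ℝ) ^ (δ / 2) + 1 ≤ (1 + L) * (Q : ℝ) ^ (δ / 2) := by nlinarith
    have h7 : (1 + (L : ℝ)) * (Q : ℝ) ^ (δ / 2) ≤ (Q : ℝ) ^ (δ / 2) * (Q : ℝ) ^ (δ / 2) :=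
      mul_le_mul_of_nonneg_right hQL (by positivity)
    linarith
  calc ((R.card : ℝ) / Q) * ∑ k ∈ range Q, ‖∑ S ∈ powersetCard r (range K), ee ((k : ℝ) * (change b K N f S : ℕ) / Q)‖
      ≤ ((R.card : ℝ) / Q) * (L * (2 * (3 ^ n * (Z : ℝ) ^ ((n : ℝ) / E))) * (K.choose r : ℝ) +
          Q * (Real.exp (-(c₁ / 2 * r)) * (K.choose r : ℝ))) := mul_le_mul_of_nonneg_left hsplit hR0
    _ = ((R.card : ℝ) / Q) * ((L * (2 * (3 ^ n * (Z : ℝ) ^ ((n : ℝ) / E))) + Q * Real.exp (-(c₁ / 2 * r))) * (K.choose r : ℝ)) := by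
        ring
    _ ≤ ((R.card : ℝ) / Q) * ((Q : ℝ) ^ δ * (K.choose r : ℝ)) := by
        apply mul_le_mul_of_nonneg_left _ hR0
        exact mul_le_mul_of_nonneg_right hfin hC0
    _ = _ := by ring

end Pool.Agent.Y57.HS
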