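import Pool.Agent.Y927.GP.E
import Pool.Agent.Y57.HS.Law

/-!
# Trajectories of generalised Collatz maps at the values of polynomials at integers obtained by few changes of digits

`classes`: few residue classes `z` modulo `d ^ N` contain integers `x` with unbalanced `f x` (the proof is the one of
`Pool.Agent.Y927.GP.main`, for residue classes instead of integers).
-/

set_option autoImplicit false

namespace Pool.Agent.Y57.HS

open Finset Filter Polynomial
open Pool.Agent.Y927.GP Pool.Agent.H319R2.M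

theorem eval_congr (f : ℤ[X]) {m a b : ℤ} (h : a ≡ b [ZMOD m]) : f.eval a ≡ f.eval b [ZMOD m] := by
  rw [Int.modEq_iff_dvd] at h ⊢
  exact h.trans (sub_dvd_eval_sub b a f)

/-- Few residue classes modulo `d ^ N` contain integers with unbalanced values of `f`. -/
theorem classes {g : GM} {b : ℤ → ℤ} {e : ℤ → ℕ} {C : Finset (ℤ × ℕ)} {ρ : ℤ × ℕ → ℝ} (hf : g.Fac b e)
    (hC : g.Cls e C ρ) {f : ℤ[X]} (hdeg : 1 ≤ f.natDegree) {η : ℝ} (hη : 0 < η) :
    ∃ δ K : ℝ, 0 < δ ∧ δ < 1 ∧ 0 < K ∧ ∀ N : ℕ, ∀ A : Finset ℤ, A ⊆ Ioc (-1) (-1 + (g.d : ℤ) ^ N) →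
        (∀ n ∈ A, ∃ x : ℤ, x ≡ n [ZMOD (g.d : ℤ) ^ N] ∧ f.eval x ∈ g.SC C ∧ Unb g (mu g C ρ) η N (f.eval x)) →
          (A.card : ℝ) ≤ K * ((g.d : ℝ) ^ N) ^ (1 - δ) := by
  classical
  set μ := mu g C ρ with hμ
  have hd2 := g.two_le
  have hd1 : (1 : ℝ) < g.d := by have := g.dr; linarith
  have hd0 : (0 : ℝ) < g.d := by linarith
  have hL : 0 < Real.log g.d := Real.log_pos hd1
  set w : ℤ[X] := f.derivative with hw
  have hw0 : w ≠ 0 := by
    intro h
    have := Polynomial.derivative_eq_zero.1 h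
    omega
  obtain ⟨m, hm⟩ : ∃ m, w.natDegree = m := ⟨_, rfl⟩
  set a : ℕ := w.leadingCoeff.natAbs with ha
  have ha1 : |w.leadingCoeff| < 2 ^ a := by
    rw [Int.abs_eq_natAbs, ← ha]
    exact_mod_cast Nat.lt_two_pow_self
  set M : ℕ := (m + 1) * (m + 1) with hM
  have hM1 : 1 ≤ M := Nat.one_le_iff_ne_zero.2 (by positivity)
  have hM1r : (1 : ℝ) ≤ M := by exact_mod_cast hM1
  have hMp : (0 : ℝ) < M := by linarith
  obtain ⟨c, K2, hc, hK2, hclass⟩ := card_classes hf hC hη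
  set θ : ℝ := min 1 (c / (4 * Real.log g.d)) with hθ
  have hθ0 : 0 < θ := lt_min one_pos (by positivity)
  have hθ1 : θ ≤ 1 := min_le_left _ _
  have hθc : 2 * θ * Real.log g.d ≤ c / 2 := by
    have h1 : θ ≤ c / (4 * Real.log g.d) := min_le_right _ _
    have h2 := mul_le_mul_of_nonneg_right h1 hL.le
    have e1 : c / (4 * Real.log g.d) * Real.log g.d = c / 4 := by field_simp
    rw [e1] at h2
    linarith
  have hl2 : 0 < Real.log 2 := Real.log_pos (by norm_num)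
  obtain ⟨δ1, K1, hδ10, hδ11, hK1, hconv1⟩ := conv g.d hd2 (c := θ * Real.log 2 / M) (by positivity)
  obtain ⟨δ2, K3, hδ20, hδ21, hK3, hconv2⟩ := conv g.d hd2 (c := c / 2) (by positivity)
  obtain ⟨Y0, hY01, hlarge⟩ := large g.d hd2 hθ0 (show (0 : ℝ) < 1 by norm_num)
    (show (0 : ℝ) < 1 by norm_num) g.R_nonneg ((a : ℝ) + 1)
  set δ : ℝ := min δ1 δ2 with hδ
  have hδ0 : 0 < δ := lt_min hδ10 hδ20
  have hδa : δ ≤ δ1 := min_le_left _ _
  have hδb : δ ≤ δ2 := min_le_right _ _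
  have hδ1 : δ < 1 := lt_of_le_of_lt hδa hδ11
  set P : ℝ := ((g.d.primeFactors.card : ℕ) : ℝ) with hP
  have hP0 : 0 ≤ P := Nat.cast_nonneg _
  refine ⟨δ, P * (m * (2 ^ (a + 2) * K1 + 1)) + K2 * (g.d + 1) * K3 + Y0, hδ0, hδ1,
    by positivity, ?_⟩
  intro N A hA hbad
  obtain ⟨Y, hYdef⟩ : ∃ Y : ℝ, Y = (g.d : ℝ) ^ N := ⟨_, rfl⟩
  obtain ⟨X, hX⟩ : ∃ X : ℤ, X = -1 := ⟨_, rfl⟩
  rw [← hYdef]
  have hY : 1 ≤ Y := by rw [hYdef]; exact one_le_pow₀ hd1.le
  have hYp : 0 < Y := by linarith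
  have hY1δ : 1 ≤ Y ^ (1 - δ) := Real.one_le_rpow hY (by linarith)
  have hQd : ⌊Y⌋₊ = g.d ^ N := by
    rw [hYdef]
    have : ((g.d : ℝ) ^ N) = ((g.d ^ N : ℕ) : ℝ) := by push_cast; ring
    rw [this, Nat.floor_natCast]
  have hN1 : (g.d : ℝ) ^ N ≤ Y := hYdef.ge
  have hN2 : Y < (g.d : ℝ) ^ (N + 1) := by
    rw [hYdef]
    exact pow_lt_pow_right₀ hd1 (by omega)
  have hNM : ⌊Y⌋₊ ≤ g.d ^ (N + 1) := by
    rw [hQd]
    exact Nat.pow_le_pow_right (by omega) (by omega)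
  replace hA : A ⊆ Ioc X (X + ⌊Y⌋₊) := by
    rw [hQd, hX]
    push_cast
    exact hA
  have hN0 : (0 : ℝ) ≤ N := Nat.cast_nonneg _
  have hE0 : (0 : ℝ) ≤ P * (m * (2 ^ (a + 2) * K1 + 1)) + K2 * (g.d + 1) * K3 := by positivity
  rcases lt_or_ge Y Y0 with hsmall | hbig
  · have h1 : (A.card : ℝ) ≤ Y := by
      have h2 := Finset.card_le_card hA
      rw [Int.card_Ioc] at h2
      have h3 : (X + ⌊Y⌋₊ - X).toNat = ⌊Y⌋₊ := by omega
      rw [h3] at h2
      have h4 : (A.card : ℝ) ≤ ⌊Y⌋₊ := by exact_mod_cast h2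
      exact h4.trans (Nat.floor_le hYp.le)
    calc (A.card : ℝ) ≤ Y := h1
      _ ≤ Y0 * 1 := by linarith
      _ ≤ Y0 * Y ^ (1 - δ) := by gcongr
      _ ≤ _ := by
          apply mul_le_mul_of_nonneg_right _ (by positivity)
          linarith
  obtain ⟨hNa, -, -⟩ := hlarge Y hbig N hN1 hN2
  have ha0 : (0 : ℝ) ≤ a := Nat.cast_nonneg _
  set j0 : ℕ := ⌊θ * N⌋₊ with hj0
  have hj0a : a + 1 ≤ j0 := by
    rw [hj0]; apply Nat.le_floor; push_cast; exact hNa
  have hj0u : (j0 : ℝ) ≤ θ * N := Nat.floor_le (by positivity)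
  have hj0l : θ * N < j0 + 1 := Nat.lt_floor_add_one _
  have hj0N : j0 ≤ N := by
    have h1 : (j0 : ℝ) ≤ N := by
      calc (j0 : ℝ) ≤ θ * N := hj0u
        _ ≤ 1 * N := mul_le_mul_of_nonneg_right hθ1 hN0
        _ = N := one_mul _
    exact_mod_cast h1
  set l : ℕ := (j0 - a) / M with hl
  set Q : ℕ := ⌊Y⌋₊ with hQ
  have hQY : (Q : ℝ) ≤ Y := Nat.floor_le hYp.le
  -- the exceptional sets
  set G : ℤ → Prop := fun n => ∀ p : ℕ, p.Prime → p ∣ g.d → ¬ ((p : ℤ) ^ j0) ∣ w.eval n with hG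
  set A0 := A.filter (fun n : ℤ => G n) with hA0
  set V := A0.image (fun n : ℤ => f.eval n % (g.d : ℤ) ^ N) with hV
  set E1 := g.d.primeFactors.biUnion (fun p : ℕ => (Ioc X (X + Q)).filter
    (fun n : ℤ => ((p : ℤ) ^ j0) ∣ w.eval n)) with hE1
  have hsub : A ⊆ E1 ∪ A0 := by
    intro n hn
    rw [mem_union]
    by_cases h1 : G n
    · right
      rw [hA0, mem_filter]
      exact ⟨hn, h1⟩
    · left
      rw [hG] at h1
      push Not at h1
      obtain ⟨p, hp, hpd, hdv⟩ := h1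
      rw [hE1, mem_biUnion]
      refine ⟨p, ?_, ?_⟩
      · rw [Nat.mem_primeFactors]; exact ⟨hp, hpd, by omega⟩
      · rw [mem_filter]; exact ⟨hA hn, hdv⟩
  have hcard : A.card ≤ E1.card + A0.card :=
    (Finset.card_le_card hsub).trans (Finset.card_union_le _ _)
  -- `E1`
  have hB1 : (E1.card : ℝ) ≤ P * (m * (2 ^ (a + 2) * K1 + 1)) * Y ^ (1 - δ) := by
    have h1 : E1.card ≤ ∑ p ∈ g.d.primeFactors, m * (Q / 2 ^ l + 1) := by
      refine Finset.card_biUnion_le.trans ?_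
      apply Finset.sum_le_sum
      intro p hp
      rw [Nat.mem_primeFactors] at hp
      apply count1 hw0 hm (L := 2 ^ l) Nat.one_le_two_pow
      have h1 : l * M ≤ j0 - a := Nat.div_mul_le_self _ _
      calc (((2 ^ l : ℕ) : ℤ)) ^ ((m + 1) * (m + 1)) * |w.leadingCoeff|
          < (((2 ^ l : ℕ) : ℤ)) ^ ((m + 1) * (m + 1)) * 2 ^ a :=
            mul_lt_mul_of_pos_left ha1 (by positivity)
        _ = (2 : ℤ) ^ (l * M + a) := by
            push_cast
            rw [← pow_mul, ← pow_add]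
        _ ≤ 2 ^ j0 := pow_le_pow_right₀ (by norm_num) (by omega)
        _ ≤ (p : ℤ) ^ j0 := by
            apply pow_le_pow_left₀ (by norm_num)
            exact_mod_cast hp.1.two_le
    rw [Finset.sum_const, smul_eq_mul] at h1
    have h2 : (E1.card : ℝ) ≤ P * (m * (((Q / 2 ^ l : ℕ) : ℝ) + 1)) := by
      rw [hP]; exact_mod_cast h1
    have h3 : ((Q / 2 ^ l : ℕ) : ℝ) ≤ 2 ^ (a + 2) * K1 * Y ^ (1 - δ) := by
      have h4 : ((Q / 2 ^ l : ℕ) : ℝ) ≤ (Q : ℝ) / 2 ^ l := by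
        have := Nat.cast_div_le (α := ℝ) (m := Q) (n := 2 ^ l)
        push_cast at this
        exact this
      have h5 : (Q : ℝ) / 2 ^ l ≤ Y * Real.exp (-(l * Real.log 2)) := by
        rw [Real.exp_neg, Real.exp_nat_mul, Real.exp_log (by norm_num), div_eq_mul_inv]
        gcongr
      have h9 : j0 - a < (l + 1) * M := by
        have := Nat.lt_div_mul_add (a := j0 - a) (b := M) (by omega)
        rw [← hl] at this
        linarith [this, Nat.add_mul l 1 M]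
      have h10 : (j0 : ℝ) - a < ((l : ℝ) + 1) * M := by
        have : ((j0 - a : ℕ) : ℝ) < (((l + 1) * M : ℕ) : ℝ) := by exact_mod_cast h9
        rw [Nat.cast_sub (by omega)] at this
        push_cast at this
        exact this
      have h11 : θ * N - 1 - a < ((l : ℝ) + 1) * M := by linarith
      have h12 : (θ * N - 1 - a) / M < (l : ℝ) + 1 := by rwa [div_lt_iff₀ hMp]
      have h13 : (θ * N - 1 - a) / M = θ / M * N - (1 + a) / M := by
        field_simp; ring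
      have h14 : (1 + (a : ℝ)) / M ≤ 1 + a := div_le_self (by linarith) hM1r
      have h15 : θ / M * N - (a + 2) ≤ l := by linarith
      have h16 : Real.exp (-(l * Real.log 2)) ≤ 2 ^ (a + 2) * Real.exp (-(θ * Real.log 2 / M * N)) := by
        have e1 : (2 : ℝ) ^ (a + 2) = Real.exp (((a : ℝ) + 2) * Real.log 2) := by
          have : ((a : ℝ) + 2) = ((a + 2 : ℕ) : ℝ) := by push_cast; ring
          rw [this, Real.exp_nat_mul, Real.exp_log (by norm_num)]
        rw [e1, ← Real.exp_add]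
        apply Real.exp_le_exp.2
        have h17 := mul_le_mul_of_nonneg_right h15 hl2.le
        have e2 : (θ / M * N - (a + 2)) * Real.log 2 = θ * Real.log 2 / M * N - (a + 2) * Real.log 2 := by
          ring
        rw [e2] at h17
        linarith
      have h18 := hconv1 N Y hY hN2
      have h19 : Real.exp (-(θ * Real.log 2 / M * N)) * Y ≤
          ((N : ℝ) + 1) * Real.exp (-(θ * Real.log 2 / M * N)) * Y := by
        apply mul_le_mul_of_nonneg_right _ hYp.le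
        exact le_mul_of_one_le_left (Real.exp_pos _).le (by linarith)
      calc ((Q / 2 ^ l : ℕ) : ℝ) ≤ (Q : ℝ) / 2 ^ l := h4
        _ ≤ Y * Real.exp (-(l * Real.log 2)) := h5
        _ ≤ Y * (2 ^ (a + 2) * Real.exp (-(θ * Real.log 2 / M * N))) :=
            mul_le_mul_of_nonneg_left h16 hYp.le
        _ = 2 ^ (a + 2) * (Real.exp (-(θ * Real.log 2 / M * N)) * Y) := by ring
        _ ≤ 2 ^ (a + 2) * (K1 * Y ^ (1 - δ1)) :=
            mul_le_mul_of_nonneg_left (h19.trans h18) (by positivity)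
        _ ≤ 2 ^ (a + 2) * (K1 * Y ^ (1 - δ)) := by
            gcongr
        _ = 2 ^ (a + 2) * K1 * Y ^ (1 - δ) := by ring
    calc (E1.card : ℝ) ≤ P * (m * (((Q / 2 ^ l : ℕ) : ℝ) + 1)) := h2
      _ ≤ P * (m * (2 ^ (a + 2) * K1 * Y ^ (1 - δ) + Y ^ (1 - δ))) := by gcongr
      _ = P * (m * (2 ^ (a + 2) * K1 + 1)) * Y ^ (1 - δ) := by ring
  -- `A0`
  have hB2 : (A0.card : ℝ) ≤ K2 * (g.d + 1) * K3 * Y ^ (1 - δ) := by
    have hVc : (V.card : ℝ) ≤ K2 * ((N + 1) * ((g.d : ℝ) ^ N * Real.exp (-(c * N)))) := by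
      apply hclass N V
      intro v hv
      rw [hV, mem_image] at hv
      obtain ⟨n, hn, rfl⟩ := hv
      rw [hA0, mem_filter] at hn
      obtain ⟨hnA, -⟩ := hn
      obtain ⟨x, hx, hS, hT⟩ := hbad n hnA
      refine ⟨f.eval x, hS, hT, ?_⟩
      exact (eval_congr f hx).symm
    have h1 : A0.card ≤ V.card * (g.d ^ j0 * (g.d ^ (j0 + 1) + 1)) := by
      refine le_trans (Finset.card_le_card ?_) (count2 (f := f) hd2 hj0N hNM X V)
      intro n hn
      have hnV : f.eval n % (g.d : ℤ) ^ N ∈ V := by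
        rw [hV]; exact mem_image_of_mem _ hn
      rw [hA0, mem_filter] at hn
      rw [mem_filter]
      exact ⟨hA hn.1, hn.2, hnV⟩
    have h2 : (A0.card : ℝ) ≤ V.card * ((g.d : ℝ) ^ j0 * ((g.d : ℝ) ^ (j0 + 1) + 1)) := by
      exact_mod_cast h1
    have h4 : (g.d : ℝ) ^ j0 * ((g.d : ℝ) ^ (j0 + 1) + 1) ≤ (g.d + 1) * Real.exp (c / 2 * N) := by
      have h5 : (1 : ℝ) ≤ (g.d : ℝ) ^ j0 := one_le_pow₀ hd1.le
      have h6 : (g.d : ℝ) ^ j0 * ((g.d : ℝ) ^ (j0 + 1) + 1) ≤ (g.d + 1) * ((g.d : ℝ) ^ j0) ^ 2 := by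
        rw [pow_succ (g.d : ℝ) j0]
        nlinarith
      have h7 : ((g.d : ℝ) ^ j0) ^ 2 = Real.exp (j0 * (2 * Real.log g.d)) := by
        rw [← pow_mul, mul_comm (j0 : ℝ), mul_comm (2 : ℝ), mul_assoc, mul_comm (Real.log _)]
        have : (2 : ℝ) * j0 = ((j0 * 2 : ℕ) : ℝ) := by push_cast; ring
        rw [this, Real.exp_nat_mul, Real.exp_log hd0]
      refine h6.trans ?_
      rw [h7]
      apply mul_le_mul_of_nonneg_left _ (by positivity)
      apply Real.exp_le_exp.2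
      have h8 : (j0 : ℝ) * (2 * Real.log g.d) ≤ θ * N * (2 * Real.log g.d) :=
        mul_le_mul_of_nonneg_right hj0u (by positivity)
      have h9 : θ * N * (2 * Real.log g.d) = 2 * θ * Real.log g.d * N := by ring
      rw [h9] at h8
      exact h8.trans (mul_le_mul_of_nonneg_right hθc hN0)
    have h18 := hconv2 N Y hY hN2
    calc (A0.card : ℝ) ≤ V.card * ((g.d : ℝ) ^ j0 * ((g.d : ℝ) ^ (j0 + 1) + 1)) := h2
      _ ≤ (K2 * ((N + 1) * ((g.d : ℝ) ^ N * Real.exp (-(c * N))))) *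
          ((g.d + 1) * Real.exp (c / 2 * N)) := by gcongr
      _ = K2 * (g.d + 1) * (((N : ℝ) + 1) * (Real.exp (-(c * N)) * Real.exp (c / 2 * N)) *
          (g.d : ℝ) ^ N) := by ring
      _ = K2 * (g.d + 1) * (((N : ℝ) + 1) * Real.exp (-(c / 2 * N)) * (g.d : ℝ) ^ N) := by
          rw [← Real.exp_add]
          have : -(c * N) + c / 2 * N = -(c / 2 * N) := by ring
          rw [this]
      _ ≤ K2 * (g.d + 1) * (((N : ℝ) + 1) * Real.exp (-(c / 2 * N)) * Y) := by gcongr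
      _ ≤ K2 * (g.d + 1) * (K3 * Y ^ (1 - δ2)) := by gcongr
      _ ≤ K2 * (g.d + 1) * (K3 * Y ^ (1 - δ)) := by
          gcongr
      _ = K2 * (g.d + 1) * K3 * Y ^ (1 - δ) := by ring
  have hcard' : (A.card : ℝ) ≤ E1.card + A0.card := by exact_mod_cast hcard
  calc (A.card : ℝ) ≤ E1.card + A0.card := hcard'
    _ ≤ P * (m * (2 ^ (a + 2) * K1 + 1)) * Y ^ (1 - δ) + K2 * (g.d + 1) * K3 * Y ^ (1 - δ) := by gcongr
    _ = (P * (m * (2 ^ (a + 2) * K1 + 1)) + K2 * (g.d + 1) * K3) * Y ^ (1 - δ) := by ring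
    _ ≤ (P * (m * (2 ^ (a + 2) * K1 + 1)) + K2 * (g.d + 1) * K3 + Y0) * Y ^ (1 - δ) := by
        apply mul_le_mul_of_nonneg_right _ (by positivity)
        linarith

end Pool.Agent.Y57.HS
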