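import Pool.Agent.Y57.HS.Cls

/-!
# Trajectories of generalised Collatz maps at the values of polynomials at integers obtained by few changes of digits
-/

set_option autoImplicit false

namespace Pool.Agent.Y57.HS

open Finset Filter Polynomial
open Pool.Agent.Y927.GP Pool.Agent.H319R2.M
open Pool.Agent.TH894.SM (change change_eq change_lt)

/-- the positions are determined by the number obtained -/
lemma change_inj (b N : ℕ) (hb : 1 ≤ b) (f : ℕ → ℕ) (hf : ∀ j, f j < b ∧ f j ≠ N / b ^ j % b) (S S' : Finset ℕ) :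
    ∀ K, change b K N f S = change b K N f S' → ∀ i < K, (i ∈ S ↔ i ∈ S') := by
  intro K
  induction K with
  | zero => intro _ i hi; omega
  | succ K ih =>
    intro h
    have e1 : ∀ S : Finset ℕ, change b (K + 1) N f S =
        change b K N f S + (if K ∈ S then f K else N / b ^ K % b) * b ^ K := by
      intro S
      unfold change
      rw [sum_range_succ]
    rw [e1 S, e1 S'] at h
    have h1 := change_lt b K N hb f (fun j => (hf j).1) S
    have h2 := change_lt b K N hb f (fun j => (hf j).1) S'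
    obtain ⟨u, hu⟩ : ∃ u, u = (if K ∈ S then f K else N / b ^ K % b) := ⟨_, rfl⟩
    obtain ⟨v, hv⟩ : ∃ v, v = (if K ∈ S' then f K else N / b ^ K % b) := ⟨_, rfl⟩
    rw [← hu, ← hv] at h
    have huv : u = v := by
      rcases lt_trichotomy u v with h3 | h3 | h3
      · exfalso
        have : (u + 1) * b ^ K ≤ v * b ^ K := Nat.mul_le_mul_right _ h3
        rw [add_mul, one_mul] at this
        omega
      · exact h3
      · exfalso
        have : (v + 1) * b ^ K ≤ u * b ^ K := Nat.mul_le_mul_right _ h3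
        rw [add_mul, one_mul] at this
        omega
    have hch : change b K N f S = change b K N f S' := by
      rw [huv] at h
      omega
    intro i hi
    rcases Nat.lt_succ_iff_lt_or_eq.1 hi with h4 | h4
    · exact ih hch i h4
    · rw [h4]
      have hne := (hf K).2
      rw [hu, hv] at huv
      by_cases ha : K ∈ S <;> by_cases hb' : K ∈ S'
      · exact ⟨fun _ => hb', fun _ => ha⟩
      · rw [if_pos ha, if_neg hb'] at huv
        exact absurd huv hne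
      · rw [if_neg ha, if_pos hb'] at huv
        exact absurd huv.symm hne
      · exact ⟨fun h => absurd h ha, fun h => absurd h hb'⟩

/-- few numbers obtained have small values -/
lemma few_low (b : ℕ) (hb : 1 ≤ b) {f : ℤ[X]} (hd : 1 ≤ f.natDegree) : ∃ C : ℝ, 0 < C ∧ ∀ Z : ℝ, 1 ≤ Z →
    ∀ r K N : ℕ, ∀ φ : ℕ → ℕ, (∀ j, φ j < b ∧ φ j ≠ N / b ^ j % b) → ∀ A ⊆ powersetCard r (range K),
    (∀ S ∈ A, |((f.eval ((change b K N φ S : ℕ) : ℤ) : ℤ) : ℝ)| < Z) → (A.card : ℝ) ≤ C * Z ^ (1 / (f.natDegree : ℝ)) := by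
  classical
  obtain ⟨C, hC, h⟩ := few_small hd
  refine ⟨C, hC, fun Z hZ r K N φ hφ A hA hz => ?_⟩
  have h1 := h Z hZ (A.image (fun S => ((change b K N φ S : ℕ) : ℤ))) (by
    intro n hn
    rw [mem_image] at hn
    obtain ⟨S, hS, rfl⟩ := hn
    exact hz S hS)
  rwa [card_image_of_injOn] at h1
  intro S hS S' hS' heq
  have h2 : change b K N φ S = change b K N φ S' := by
    have : ((change b K N φ S : ℕ) : ℤ) = ((change b K N φ S' : ℕ) : ℤ) := heq
    exact_mod_cast this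
  have h3 := change_inj b N hb φ hφ S S' K h2
  have hS1 := (mem_powersetCard.1 (hA hS)).1
  have hS2 := (mem_powersetCard.1 (hA hS')).1
  ext i
  constructor
  · intro hi
    exact (h3 i (mem_range.1 (hS1 hi))).1 hi
  · intro hi
    exact (h3 i (mem_range.1 (hS2 hi))).2 hi

lemma two_pow_le (r K : ℕ) (h : 2 * r ≤ K) : (2 : ℝ) ^ r ≤ (K.choose r : ℝ) := by
  have h1 : ∀ r : ℕ, 2 ^ r ≤ (2 * r).choose r := by
    intro r
    induction r with
    | zero => simp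
    | succ r ih =>
      have h2 := Nat.succ_mul_centralBinom_succ r
      unfold Nat.centralBinom at h2
      have h3 : (r + 1) * (2 * (r + 1)).choose (r + 1) = 2 * (2 * r + 1) * (2 * r).choose r := h2
      have h4 : (r + 1) * 2 ^ (r + 1) ≤ (r + 1) * (2 * (r + 1)).choose (r + 1) := by
        rw [h3, pow_succ]
        have h5 : 2 * (2 * r + 1) * 2 ^ r ≤ 2 * (2 * r + 1) * (2 * r).choose r := Nat.mul_le_mul_left _ ih
        refine le_trans ?_ h5
        have h6 : (r + 1) * (2 ^ r * 2) = (2 * (r + 1)) * 2 ^ r := by ring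
        rw [h6]
        apply Nat.mul_le_mul_right
        omega
      exact Nat.le_of_mul_le_mul_left h4 (by omega)
  have h2 : 2 ^ r ≤ K.choose r := (h1 r).trans (Nat.choose_le_choose r h)
  exact_mod_cast h2

/-- **Trajectories of the values of polynomials at the integers obtained by few changes of digits.** -/
theorem traj {g : GM} {b : ℤ → ℤ} {e : ℤ → ℕ} {C : Finset (ℤ × ℕ)} {ρ : ℤ × ℕ → ℝ} (hf : g.Fac b e)
    (hC : g.Cls e C ρ) {f : ℤ[X]} (hdeg : 1 ≤ f.natDegree) (q : ℕ) (hq : 2 ≤ q) (hcop : Nat.Coprime q g.d)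
    {ε : ℝ} (hε : 0 < ε) (H : ℝ) : ∃ c δ : ℝ, 0 < c ∧ 0 < δ ∧ ∃ y₀ : ℕ, ∀ r K y : ℕ, 2 * r ≤ K → y₀ ≤ y →
    ∀ N : ℕ, N < q ^ K → ∀ φ : ℕ → ℕ, (∀ j, φ j < q ∧ φ j ≠ N / q ^ j % q) →
    ∀ A ⊆ powersetCard r (range K), (∀ S ∈ A, f.eval ((change q K N φ S : ℕ) : ℤ) ∈ g.SC C ∧
      ∃ Y : ℝ, y ≤ Y ∧ Y ≤ Real.exp (c * r) ∧ ¬ (Real.exp (c * r) ^ H ≤ |((f.eval ((change q K N φ S : ℕ) : ℤ) : ℤ) : ℝ)| ∧
        Typ g (mu g C ρ) ε Y (f.eval ((change q K N φ S : ℕ) : ℤ)))) →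
    (A.card : ℝ) ≤ (y : ℝ) ^ (-δ) * (K.choose r : ℝ) := by
  classical
  set μ := mu g C ρ with hμ
  have hd2 := g.two_le
  have hd1 : (1 : ℝ) < g.d := by have := g.dr; linarith
  have hd0 : (0 : ℝ) < g.d := by linarith
  have hL : 0 < Real.log g.d := Real.log_pos hd1
  have hl2 : 0 < Real.log 2 := Real.log_pos (by norm_num)
  set κ : ℝ := max 0 (-μ / Real.log g.d) with hκdef
  have hκ0 : 0 ≤ κ := le_max_left _ _
  have hκ : -μ ≤ κ * Real.log g.d := by
    have h1 : -μ / Real.log g.d ≤ κ := le_max_right _ _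
    rwa [div_le_iff₀ hL] at h1
  set D : ℝ := max (κ + 4) H with hD
  have hD4 : κ + 4 ≤ D := le_max_left _ _
  have hDH : H ≤ D := le_max_right _ _
  have hD0 : 0 < D := by linarith
  set ε1 : ℝ := min ε 1 with hε1
  have hε10 : 0 < ε1 := lt_min hε one_pos
  have hε1ε : ε1 ≤ ε := min_le_left _ _
  have hε1β : ε1 ≤ (D - κ) / 4 := by
    have : ε1 ≤ 1 := min_le_right _ _
    linarith
  obtain ⟨δ1, K1, hδ10, hδ11, hK1, hcls⟩ := classes hf hC hdeg (η := ε1 / 4 * Real.log g.d) (by positivity)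
  obtain ⟨cL, hcL, x₀, hlaw⟩ := law q hq (δ1 / 2) (by positivity)
  obtain ⟨C3, hC3, hlow⟩ := few_low q (by omega) hdeg
  obtain ⟨Y0, hY01, hlarge⟩ := large g.d hd2 (show (0 : ℝ) < 1 by norm_num) (show 0 < ε1 / 4 by positivity)
    (show 0 < (D - κ) / 2 by linarith) g.R_nonneg 0
  set c : ℝ := min cL (Real.log 2 / (2 * D + 2)) with hc
  have hc0 : 0 < c := lt_min hcL (by positivity)
  have hccL : c ≤ cL := min_le_left _ _
  have hcD : c * D ≤ Real.log 2 / 2 ∧ c ≤ Real.log 2 / 2 := by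
    have h1 : c ≤ Real.log 2 / (2 * D + 2) := min_le_right _ _
    rw [le_div_iff₀ (by linarith)] at h1
    constructor
    · nlinarith
    · nlinarith
  obtain ⟨ϑ, hϑ⟩ : ∃ ϑ : ℝ, ϑ = (g.d : ℝ) ^ (-(δ1 / 2)) := ⟨_, rfl⟩
  have hϑ0 : 0 < ϑ := by rw [hϑ]; positivity
  have hϑ1 : ϑ < 1 := by
    rw [hϑ]
    exact Real.rpow_lt_one_of_one_lt_of_neg hd1 (by linarith)
  obtain ⟨B, hB⟩ : ∃ B : ℝ, B = C3 + K1 * (g.d : ℝ) ^ (δ1 / 2) / (1 - ϑ) := ⟨_, rfl⟩
  have h1ϑ : 0 < 1 - ϑ := by linarith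
  have hB0 : 0 < B := by rw [hB]; positivity
  obtain ⟨δ, hδ⟩ : ∃ δ : ℝ, δ = min (δ1 / 4) (1 / 2) := ⟨_, rfl⟩
  have hδ0 : 0 < δ := by rw [hδ]; exact lt_min (by positivity) (by norm_num)
  have hev : ∀ᶠ y : ℕ in atTop, (1 : ℝ) ≤ y ∧ Y0 ≤ y ∧ (g.d : ℝ) * (x₀ + 1) ≤ y ∧ B ≤ (y : ℝ) ^ δ := by
    have h1 : Tendsto (fun x : ℕ => (x : ℝ)) atTop atTop := tendsto_natCast_atTop_atTop
    have h2 : Tendsto (fun x : ℕ => (x : ℝ) ^ δ) atTop atTop := (tendsto_rpow_atTop hδ0).comp h1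
    filter_upwards [h1.eventually (eventually_ge_atTop _), h1.eventually (eventually_ge_atTop _),
      h1.eventually (eventually_ge_atTop _), h2.eventually (eventually_ge_atTop _)] with y a1 a2 a3 a4
    exact ⟨a1, a2, a3, a4⟩
  obtain ⟨y₀, hy₀⟩ := eventually_atTop.1 hev
  refine ⟨c, δ, hc0, hδ0, y₀, fun r K y hrK hy N hN φ hφ A hA hbad => ?_⟩
  obtain ⟨hy1, hyY0, hyx, hyB⟩ := hy₀ y hy
  have hyp : (0 : ℝ) < y := by linarith
  have hch0 : (0 : ℝ) ≤ (K.choose r : ℝ) := Nat.cast_nonneg _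
  rcases A.eq_empty_or_nonempty with hA0 | ⟨S₀, hS₀⟩
  · rw [hA0, card_empty, Nat.cast_zero]
    positivity
  have hyr : (y : ℝ) ≤ Real.exp (c * r) := by
    obtain ⟨-, Y, h1, h2, -⟩ := hbad S₀ hS₀
    exact h1.trans h2
  have hr0 : (0 : ℝ) ≤ r := Nat.cast_nonneg _
  set M : ℕ := ⌊c * r / Real.log g.d⌋₊ + 1 with hM
  set N0 : ℕ := Nat.log g.d y with hN0
  have hy0' : y ≠ 0 := by
    intro h
    rw [h] at hy1
    norm_num at hy1
  set W : ℕ → Finset ℤ := fun n1 => (Ioc (-1 : ℤ) (-1 + (g.d : ℤ) ^ n1)).filter (fun n => ∃ x : ℤ,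
    x ≡ n [ZMOD (g.d : ℤ) ^ n1] ∧ f.eval x ∈ g.SC C ∧ Unb g μ (ε1 / 4 * Real.log g.d) n1 (f.eval x)) with hW
  set R : ℕ → Finset ℕ := fun n1 => (W n1).image Int.toNat with hR
  have hRsub : ∀ n1, R n1 ⊆ range (g.d ^ n1) := by
    intro n1 z hz
    rw [hR] at hz
    simp only [mem_image] at hz
    obtain ⟨n, hn, rfl⟩ := hz
    rw [hW] at hn
    simp only [mem_filter, mem_Ioc] at hn
    rw [mem_range]
    have h1 := hn.1.1
    have h2 := hn.1.2
    have h3 : ((g.d : ℤ) ^ n1) = ((g.d ^ n1 : ℕ) : ℤ) := by push_cast; ring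
    rw [h3] at h2
    omega
  have hRcard : ∀ n1, ((R n1).card : ℝ) ≤ K1 * ((g.d : ℝ) ^ n1) ^ (1 - δ1) := by
    intro n1
    have h1 : ((R n1).card : ℝ) ≤ (W n1).card := by exact_mod_cast card_image_le
    refine h1.trans (hcls n1 (W n1) (filter_subset _ _) ?_)
    intro n hn
    rw [hW] at hn
    exact (mem_filter.1 hn).2
  set A1 := A.filter (fun S => |((f.eval ((change q K N φ S : ℕ) : ℤ) : ℤ) : ℝ)| < Real.exp (c * r) ^ D) with hA1
  have hsub : A ⊆ A1 ∪ (Ico N0 M).biUnion (fun n1 =>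
      (powersetCard r (range K)).filter (fun S => change q K N φ S % g.d ^ n1 ∈ R n1)) := by
    intro S hS
    rw [mem_union]
    by_cases hsm : |((f.eval ((change q K N φ S : ℕ) : ℤ) : ℤ) : ℝ)| < Real.exp (c * r) ^ D
    · left
      rw [hA1, mem_filter]
      exact ⟨hS, hsm⟩
    right
    push Not at hsm
    obtain ⟨hSC, Y, hY1, hY2, hnT⟩ := hbad S hS
    have hexp1 : 1 ≤ Real.exp (c * r) := Real.one_le_exp (by positivity)
    have hT : ¬ Typ g μ ε Y (f.eval ((change q K N φ S : ℕ) : ℤ)) := by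
      intro h
      apply hnT
      refine ⟨?_, h⟩
      exact (Real.rpow_le_rpow_of_exponent_le hexp1 hDH).trans hsm
    have hY : 1 ≤ Y := hy1.trans hY1
    obtain ⟨n1, hn1, hn2, -⟩ := scale g.d hd2 Y hY
    obtain ⟨-, hYε, hRN⟩ := hlarge Y (hyY0.trans hY1) n1 hn1 hn2
    have hU : Unb g μ (ε1 / 4 * Real.log g.d) n1 (f.eval ((change q K N φ S : ℕ) : ℤ)) := by
      by_contra hU
      apply hT
      apply typ_of g hκ0 hκ hε10 hε1ε hε1β hY hn1 hn2 hYε hRN _ hU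
      refine le_trans ?_ hsm
      calc Y ^ (D - ε1) ≤ Y ^ D := Real.rpow_le_rpow_of_exponent_le hY (by linarith)
        _ ≤ Real.exp (c * r) ^ D := Real.rpow_le_rpow (by linarith) hY2 hD0.le
    rw [mem_biUnion]
    refine ⟨n1, ?_, ?_⟩
    · rw [mem_Ico]
      constructor
      · have h1 : g.d ^ N0 ≤ y := Nat.pow_log_le_self _ hy0'
        have h2 : ((g.d ^ N0 : ℕ) : ℝ) < (g.d : ℝ) ^ (n1 + 1) := by
          have : ((g.d ^ N0 : ℕ) : ℝ) ≤ y := by exact_mod_cast h1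
          linarith
        have h3 : g.d ^ N0 < g.d ^ (n1 + 1) := by exact_mod_cast h2
        have h4 := (Nat.pow_lt_pow_iff_right (by omega : 1 < g.d)).1 h3
        omega
      · rw [hM]
        have h1 : (n1 : ℝ) ≤ c * r / Real.log g.d := by
          rw [le_div_iff₀ hL]
          have h2 : (g.d : ℝ) ^ n1 ≤ Real.exp (c * r) := hn1.trans hY2
          have h3 := Real.log_le_log (by positivity) h2
          rw [Real.log_pow, Real.log_exp] at h3
          exact h3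
        have h2 : n1 ≤ ⌊c * r / Real.log g.d⌋₊ := Nat.le_floor h1
        omega
    · rw [mem_filter]
      refine ⟨hA hS, ?_⟩
      rw [hR]
      simp only [mem_image]
      obtain ⟨z, hz⟩ : ∃ z, z = change q K N φ S % g.d ^ n1 := ⟨_, rfl⟩
      have h4 : z < g.d ^ n1 := by rw [hz]; exact Nat.mod_lt _ (by positivity)
      rw [← hz]
      refine ⟨(z : ℤ), ?_, Int.toNat_natCast _⟩
      rw [hW]
      simp only [mem_filter, mem_Ioc]
      have h3 : ((g.d : ℤ) ^ n1) = ((g.d ^ n1 : ℕ) : ℤ) := by push_cast; ring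
      refine ⟨⟨by omega, by rw [h3]; omega⟩, ((change q K N φ S : ℕ) : ℤ), ?_, hSC, hU⟩
      rw [h3, hz, Int.natCast_mod]
      exact (Int.mod_modEq _ _).symm
  -- the sizes
  have hA1c : (A1.card : ℝ) ≤ C3 * (y : ℝ) ^ (-(1 : ℝ)) * (K.choose r : ℝ) := by
    have hexp1 : 1 ≤ Real.exp (c * r) := Real.one_le_exp (by positivity)
    have hZ1 : 1 ≤ Real.exp (c * r) ^ D := Real.one_le_rpow hexp1 hD0.le
    have h1 := hlow (Real.exp (c * r) ^ D) hZ1 r K N φ hφ A1 ((filter_subset _ _).trans hA) (by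
      intro S hS
      rw [hA1, mem_filter] at hS
      exact hS.2)
    have h2 : (Real.exp (c * r) ^ D) ^ (1 / (f.natDegree : ℝ)) ≤ Real.exp (c * r) ^ D := by
      conv_rhs => rw [← Real.rpow_one (Real.exp (c * r) ^ D)]
      apply Real.rpow_le_rpow_of_exponent_le hZ1
      have : (1 : ℝ) ≤ f.natDegree := by exact_mod_cast hdeg
      rw [div_le_one (by linarith)]
      exact this
    have h3 : Real.exp (c * r) ^ D * y ≤ 2 ^ r := by
      calc Real.exp (c * r) ^ D * y ≤ Real.exp (c * r) ^ D * Real.exp (c * r) := by gcongr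
        _ = Real.exp ((c * D + c) * r) := by
            rw [← Real.exp_mul, ← Real.exp_add]
            congr 1
            ring
        _ ≤ Real.exp (Real.log 2 * r) := by
            apply Real.exp_le_exp.2
            apply mul_le_mul_of_nonneg_right _ hr0
            linarith [hcD.1, hcD.2]
        _ = 2 ^ r := by
            rw [mul_comm, Real.exp_nat_mul, Real.exp_log (by norm_num)]
    have h4 := two_pow_le r K hrK
    have h5 : Real.exp (c * r) ^ D ≤ (y : ℝ) ^ (-(1 : ℝ)) * (K.choose r : ℝ) := by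
      rw [Real.rpow_neg_one, ← div_eq_inv_mul, le_div_iff₀ hyp]
      exact h3.trans h4
    calc (A1.card : ℝ) ≤ C3 * (Real.exp (c * r) ^ D) ^ (1 / (f.natDegree : ℝ)) := h1
      _ ≤ C3 * ((y : ℝ) ^ (-(1 : ℝ)) * (K.choose r : ℝ)) := by
          apply mul_le_mul_of_nonneg_left _ hC3.le
          exact h2.trans h5
      _ = _ := by ring
  have hterm : ∀ n1 ∈ Ico N0 M, (((powersetCard r (range K)).filter
      (fun S => change q K N φ S % g.d ^ n1 ∈ R n1)).card : ℝ) ≤ K1 * ϑ ^ n1 * (K.choose r : ℝ) := by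
    intro n1 hn1
    rw [mem_Ico] at hn1
    have hcast : (((g.d ^ n1 : ℕ)) : ℝ) = (g.d : ℝ) ^ n1 := by push_cast; ring
    have hp : (0 : ℝ) < (g.d : ℝ) ^ n1 := by positivity
    have h1 := hlaw r K (g.d ^ n1) hrK (by
      have h2 : y < g.d ^ (N0 + 1) := Nat.lt_pow_succ_log_self (by omega) y
      have h3 : g.d ^ N0 ≤ g.d ^ n1 := Nat.pow_le_pow_right (by omega) hn1.1
      have h4 : (g.d : ℝ) * (x₀ + 1) ≤ (g.d : ℝ) * (g.d : ℝ) ^ n1 := by
        have h5 : (y : ℝ) < (g.d : ℝ) ^ (N0 + 1) := by exact_mod_cast h2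
        have h6 : (g.d : ℝ) ^ N0 ≤ (g.d : ℝ) ^ n1 := by exact_mod_cast h3
        rw [pow_succ'] at h5
        have h7 : (g.d : ℝ) * (g.d : ℝ) ^ N0 ≤ (g.d : ℝ) * (g.d : ℝ) ^ n1 := mul_le_mul_of_nonneg_left h6 hd0.le
        linarith
      have h5 := le_of_mul_le_mul_left h4 hd0
      rw [← hcast] at h5
      have h6 : x₀ + 1 ≤ g.d ^ n1 := by exact_mod_cast h5
      omega) (by
      rw [hcast, Real.log_pow]
      have h2 : n1 ≤ ⌊c * r / Real.log g.d⌋₊ := by omega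
      have h3 : (n1 : ℝ) ≤ c * r / Real.log g.d := (Nat.cast_le.2 h2).trans (Nat.floor_le (by positivity))
      rw [le_div_iff₀ hL] at h3
      exact h3.trans (mul_le_mul_of_nonneg_right hccL hr0)) (Nat.Coprime.pow_right _ hcop) N hN φ hφ (R n1) (hRsub n1)
    refine h1.trans ?_
    apply mul_le_mul_of_nonneg_right _ hch0
    rw [hcast]
    calc ((g.d : ℝ) ^ n1) ^ (δ1 / 2) * (((R n1).card : ℝ) / (g.d : ℝ) ^ n1)
        ≤ ((g.d : ℝ) ^ n1) ^ (δ1 / 2) * ((K1 * ((g.d : ℝ) ^ n1) ^ (1 - δ1)) / (g.d : ℝ) ^ n1) := by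
          have := hRcard n1
          gcongr
      _ = K1 * (((g.d : ℝ) ^ n1) ^ (δ1 / 2) * (((g.d : ℝ) ^ n1) ^ (1 - δ1) * ((g.d : ℝ) ^ n1) ^ (-(1 : ℝ)))) := by
          rw [Real.rpow_neg_one]
          ring
      _ = K1 * ((g.d : ℝ) ^ n1) ^ (-(δ1 / 2)) := by
          rw [← Real.rpow_add hp, ← Real.rpow_add hp]
          congr 2
          ring
      _ = K1 * ϑ ^ n1 := by
          rw [hϑ, ← Real.rpow_natCast, ← Real.rpow_natCast, ← Real.rpow_mul hd0.le, ← Real.rpow_mul hd0.le]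
          congr 2
          ring
  have hcard : (A.card : ℝ) ≤ (A1.card : ℝ) + ∑ n1 ∈ Ico N0 M, (((powersetCard r (range K)).filter
      (fun S => change q K N φ S % g.d ^ n1 ∈ R n1)).card : ℝ) := by
    have h1 := (card_le_card hsub).trans ((card_union_le _ _).trans (Nat.add_le_add_left card_biUnion_le _))
    exact_mod_cast h1
  have hgeo : ∑ n1 ∈ Ico N0 M, ϑ ^ n1 ≤ ϑ ^ N0 / (1 - ϑ) := geom_sum_Ico_le_of_lt_one hϑ0.le hϑ1
  have hN0y : ϑ ^ N0 ≤ (g.d : ℝ) ^ (δ1 / 2) * (y : ℝ) ^ (-(δ1 / 2)) := by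
    have h2 : y < g.d ^ (N0 + 1) := Nat.lt_pow_succ_log_self (by omega) y
    have h5 : (y : ℝ) < (g.d : ℝ) ^ (N0 + 1) := by exact_mod_cast h2
    have h6 : ((g.d : ℝ) ^ (N0 + 1)) ^ (-(δ1 / 2)) ≤ (y : ℝ) ^ (-(δ1 / 2)) :=
      Real.rpow_le_rpow_of_nonpos hyp h5.le (by linarith)
    have h7 : ϑ ^ N0 = (g.d : ℝ) ^ (δ1 / 2) * ((g.d : ℝ) ^ (N0 + 1)) ^ (-(δ1 / 2)) := by
      rw [hϑ, ← Real.rpow_natCast, ← Real.rpow_natCast, ← Real.rpow_mul hd0.le, ← Real.rpow_mul hd0.le,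
        ← Real.rpow_add hd0]
      congr 1
      push_cast
      ring
    rw [h7]
    exact mul_le_mul_of_nonneg_left h6 (by positivity)
  have hsum : ∑ n1 ∈ Ico N0 M, (((powersetCard r (range K)).filter
      (fun S => change q K N φ S % g.d ^ n1 ∈ R n1)).card : ℝ) ≤
      K1 * (g.d : ℝ) ^ (δ1 / 2) / (1 - ϑ) * (y : ℝ) ^ (-(δ1 / 2)) * (K.choose r : ℝ) := by
    refine (sum_le_sum hterm).trans ?_
    rw [← sum_mul, ← mul_sum]
    apply mul_le_mul_of_nonneg_right _ hch0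
    calc K1 * ∑ n1 ∈ Ico N0 M, ϑ ^ n1 ≤ K1 * (ϑ ^ N0 / (1 - ϑ)) := mul_le_mul_of_nonneg_left hgeo hK1.le
      _ ≤ K1 * (((g.d : ℝ) ^ (δ1 / 2) * (y : ℝ) ^ (-(δ1 / 2))) / (1 - ϑ)) := by gcongr
      _ = _ := by ring
  have hfin1 : (y : ℝ) ^ (-(1 : ℝ)) ≤ (y : ℝ) ^ (-(2 * δ)) := by
    apply Real.rpow_le_rpow_of_exponent_le hy1
    have : δ ≤ 1 / 2 := by rw [hδ]; exact min_le_right _ _
    linarith
  have hfin2 : (y : ℝ) ^ (-(δ1 / 2)) ≤ (y : ℝ) ^ (-(2 * δ)) := by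
    apply Real.rpow_le_rpow_of_exponent_le hy1
    have : δ ≤ δ1 / 4 := by rw [hδ]; exact min_le_left _ _
    linarith
  calc (A.card : ℝ) ≤ C3 * (y : ℝ) ^ (-(1 : ℝ)) * (K.choose r : ℝ) +
        K1 * (g.d : ℝ) ^ (δ1 / 2) / (1 - ϑ) * (y : ℝ) ^ (-(δ1 / 2)) * (K.choose r : ℝ) :=
        hcard.trans (add_le_add hA1c hsum)
    _ ≤ C3 * (y : ℝ) ^ (-(2 * δ)) * (K.choose r : ℝ) +
        K1 * (g.d : ℝ) ^ (δ1 / 2) / (1 - ϑ) * (y : ℝ) ^ (-(2 * δ)) * (K.choose r : ℝ) := by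
        have h0 : 0 ≤ K1 * (g.d : ℝ) ^ (δ1 / 2) / (1 - ϑ) := by positivity
        gcongr
    _ = B * (y : ℝ) ^ (-(2 * δ)) * (K.choose r : ℝ) := by rw [hB]; ring
    _ ≤ (y : ℝ) ^ δ * (y : ℝ) ^ (-(2 * δ)) * (K.choose r : ℝ) := by gcongr
    _ = _ := by
        rw [← Real.rpow_add hyp]
        congr 2
        ring

end Pool.Agent.Y57.HS
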