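import Pool.Agent.Y927.GP.M2
import Pool.Agent.Y57.HS.Traj2

/-!
# The maps `x ↦ x / 2`, `(3 x + d) / 2`, simultaneously for many `d`, at the integers obtained by few changes of digits
-/

set_option autoImplicit false

namespace Pool.Agent.Y57.HS.UD

open Finset Filter Polynomial
open Pool.Agent.Y927.GP Pool.Agent.H319R2 Pool.Agent.H319R2.M
open Pool.Agent.TH894.SM (change change_eq change_lt)
open Pool.Agent.Y57.HS

/-- The map `T_d`. -/
def T (d x : ℤ) : ℤ := if x % 2 = 0 then x / 2 else (3 * x + d) / 2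

theorem hr : ∀ j : ℤ, 1 ≤ j → j < (2 : ℕ) → ((2 : ℕ) : ℤ) ∣ ((3 : ℕ) : ℤ) * j - (fun _ : ℤ => (-1 : ℤ)) j := by
  intro j h1 h2
  push_cast at h2 ⊢
  have hj : j = 1 := by omega
  rw [hj]
  norm_num

theorem D : Leigh.Data 2 (Mo.mm 3) (Mo.rr (fun _ => (-1 : ℤ))) (Mo.mm 3) (fun _ => 1) :=
  Mo.data (r := fun _ => (-1 : ℤ)) (le_refl 2) (by norm_num) hr

noncomputable def g : GM := Leigh.gm D

theorem gT : g.T = T 1 := by
  have h : g.T = Mo.T 2 3 (fun _ => -1) := by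
    unfold g
    rw [Leigh.gm_T, Mo.T_eq]
  rw [h]
  funext x
  unfold Mo.T T
  push_cast
  split_ifs with h
  · rfl
  · congr 1

theorem gd : g.d = 2 := rfl

theorem ga (x : ℤ) : g.a (x % g.d) = if x % 2 = 0 then 1 / 2 else 3 / 2 := by
  have h2 : g.a (x % g.d) = |((Mo.mm 3 (x % 2) : ℤ) : ℝ)| / 2 := rfl
  rw [h2]
  unfold Mo.mm
  split_ifs <;> norm_num

/-- The orbits of `T_d` and `T_1`. -/
theorem orbit (d : ℤ) (hd : d % 2 = 1) (x x' : ℤ) (k : ℕ) (h : x ≡ d * x' [ZMOD 2 ^ k]) : ∀ j ≤ k,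
    (T d)^[j] x ≡ d * (T 1)^[j] x' [ZMOD 2 ^ (k - j)] ∧
    (((T d)^[j] x : ℤ) : ℝ) = d * (((T 1)^[j] x' : ℤ) : ℝ) + g.prod j x' * ((x : ℝ) - d * x') := by
  intro j
  induction j with
  | zero =>
    intro _
    refine ⟨by simpa using h, ?_⟩
    rw [g.prod_zero']
    simp
  | succ j ih =>
    intro hj
    obtain ⟨h1, h2⟩ := ih (by omega)
    rw [Function.iterate_succ_apply', Function.iterate_succ_apply', prod_succ_right, gT, ga]
    set y := (T d)^[j] x with hy
    set y' := (T 1)^[j] x' with hy'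
    obtain ⟨i, hi⟩ : ∃ i, k - j = i + 1 := ⟨k - j - 1, by omega⟩
    have hi2 : k - (j + 1) = i := by omega
    rw [hi] at h1
    rw [hi2]
    obtain ⟨w, hw⟩ := (Int.modEq_iff_dvd.1 h1)
    -- `d y' - y = 2 ^ (i + 1) w`
    obtain ⟨e, he⟩ : ∃ e : ℤ, d = 2 * e + 1 := ⟨d / 2, by omega⟩
    have hw' : d * y' - y = 2 * (2 ^ i * w) := by rw [hw, pow_succ]; ring
    obtain ⟨m, hm⟩ : ∃ m : ℤ, m = 2 ^ i * w := ⟨_, rfl⟩
    rw [← hm] at hw'
    have hpar : y % 2 = y' % 2 := by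
      have : d * y' = 2 * (e * y') + y' := by rw [he]; ring
      omega
    by_cases hy0 : y' % 2 = 0
    · obtain ⟨u, hu⟩ : ∃ u, y' = 2 * u := ⟨y' / 2, by omega⟩
      have hT' : T 1 y' = u := by unfold T; rw [if_pos hy0]; omega
      have hyv : y = 2 * (d * u - m) := by
        have : d * y' = 2 * (d * u) := by rw [hu]; ring
        omega
      have hT : T d y = d * u - m := by
        unfold T
        rw [if_pos (by omega)]
        omega
      rw [hT, hT', if_pos hy0]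
      constructor
      · rw [Int.modEq_iff_dvd]
        exact ⟨w, by rw [hm]; ring⟩
      · have e1 : (((2 * (d * u - m) : ℤ)) : ℝ) = (y : ℝ) := by rw [← hyv]
        have e2 : (((2 * u : ℤ)) : ℝ) = (y' : ℝ) := by rw [← hu]
        push_cast at e1 e2 ⊢
        rw [h2, ← e2] at e1
        linear_combination (1 / 2) * e1
    · obtain ⟨u, hu⟩ : ∃ u, y' = 2 * u + 1 := ⟨y' / 2, by omega⟩
      have hT' : T 1 y' = 3 * u + 2 := by
        unfold T
        rw [if_neg hy0]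
        omega
      have hyv : y = d * (2 * u + 1) - 2 * m := by
        rw [← hu]
        omega
      have hT : T d y = d * (3 * u + 2) - 3 * m := by
        unfold T
        rw [if_neg (by omega), hyv]
        have : 3 * (d * (2 * u + 1) - 2 * m) + d = 2 * (d * (3 * u + 2) - 3 * m) := by ring
        rw [this]
        omega
      rw [hT, hT', if_neg hy0]
      constructor
      · rw [Int.modEq_iff_dvd]
        exact ⟨3 * w, by rw [hm]; ring⟩
      · have e1 : (((d * (2 * u + 1) - 2 * m : ℤ)) : ℝ) = (y : ℝ) := by rw [← hyv]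
        have e2 : (((2 * u + 1 : ℤ)) : ℝ) = (y' : ℝ) := by rw [← hu]
        push_cast at e1 e2 ⊢
        rw [h2, ← e2] at e1
        linear_combination (3 / 2) * e1

/-- The size of the term number `k`. -/
theorem size (d : ℤ) (hd : d % 2 = 1) (x x' : ℤ) (k : ℕ) (h : x ≡ d * x' [ZMOD 2 ^ k]) (hx' : |(x' : ℝ)| ≤ 2 ^ k)
    {μ η : ℝ} (hμ : μ ≤ 0) (hU : ¬ Unb g μ η k x') :
    |(((T d)^[k] x : ℤ) : ℝ)| ≤ Real.exp (k * μ + η * k) * (|(x : ℝ)| + 2 * (|(d : ℝ)| * 2 ^ k)) +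
      |(d : ℝ)| * (g.R * (k * Real.exp (2 * (η * k)))) := by
  have hb : ∀ i ≤ k, |Real.log (g.prod i x') - i * μ| ≤ η * k := by
    intro i hi
    by_contra h
    push Not at h
    exact hU ⟨i, hi, h⟩
  have hup : g.prod k x' ≤ Real.exp (k * μ + η * k) := by
    have h1 := (abs_le.1 (hb k le_rfl)).2
    rw [← Real.log_le_iff_le_exp (g.prod_pos' _ _)]
    linarith
  have hlo : ∀ i ≤ k, Real.exp (i * μ - η * k) ≤ g.prod i x' := by
    intro i hi
    have h1 := (abs_le.1 (hb i hi)).1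
    rw [← Real.le_log_iff_exp_le (g.prod_pos' _ _)]
    linarith
  have hR := g.R_nonneg
  have hsum : ∑ i ∈ range k, g.prod k x' / g.prod (i + 1) x' ≤ k * Real.exp (2 * (η * k)) := by
    have h1 : ∀ i ∈ range k, g.prod k x' / g.prod (i + 1) x' ≤ Real.exp (2 * (η * k)) := by
      intro i hi
      rw [mem_range] at hi
      have h2 := hlo (i + 1) (by omega)
      have hp := g.prod_pos' (i + 1) x'
      rw [div_le_iff₀ hp]
      calc g.prod k x' ≤ Real.exp (k * μ + η * k) := hup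
        _ ≤ Real.exp (2 * (η * k)) * Real.exp (((i + 1 : ℕ) : ℝ) * μ - η * k) := by
            rw [← Real.exp_add]
            apply Real.exp_le_exp.2
            have h3 : (((i + 1 : ℕ)) : ℝ) ≤ k := by exact_mod_cast hi
            have h4 : (k : ℝ) * μ ≤ ((i + 1 : ℕ) : ℝ) * μ := mul_le_mul_of_nonpos_right h3 hμ
            linarith
        _ ≤ _ := mul_le_mul_of_nonneg_left h2 (Real.exp_pos _).le
    refine (sum_le_sum h1).trans ?_
    rw [sum_const, card_range, nsmul_eq_mul]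
  have herr := size_err g x' k
  rw [gT] at herr
  have h1 : |(((T 1)^[k] x' : ℤ) : ℝ)| ≤ g.prod k x' * |(x' : ℝ)| + g.R * (k * Real.exp (2 * (η * k))) := by
    have h2 := (abs_le.1 herr).2
    have h3 := mul_le_mul_of_nonneg_left hsum hR
    linarith
  have h2 := (orbit d hd x x' k h k le_rfl).2
  have hp := g.prod_pos' k x'
  have h3 : |(((T d)^[k] x : ℤ) : ℝ)| ≤ |(d : ℝ)| * |(((T 1)^[k] x' : ℤ) : ℝ)| + g.prod k x' * (|(x : ℝ)| + |(d : ℝ)| * |(x' : ℝ)|) := by
    rw [h2]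
    refine (abs_add_le _ _).trans ?_
    rw [abs_mul, abs_mul, abs_of_pos hp]
    apply add_le_add le_rfl
    apply mul_le_mul_of_nonneg_left _ hp.le
    refine (abs_sub _ _).trans ?_
    rw [abs_mul]
  have hd0 : 0 ≤ |(d : ℝ)| := abs_nonneg _
  have h4 : |(((T d)^[k] x : ℤ) : ℝ)| ≤ g.prod k x' * (|(x : ℝ)| + 2 * (|(d : ℝ)| * |(x' : ℝ)|)) +
      |(d : ℝ)| * (g.R * (k * Real.exp (2 * (η * k)))) := by
    have := mul_le_mul_of_nonneg_left h1 hd0
    nlinarith
  refine h4.trans ?_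
  apply add_le_add _ le_rfl
  have h5 : |(x : ℝ)| + 2 * (|(d : ℝ)| * |(x' : ℝ)|) ≤ |(x : ℝ)| + 2 * (|(d : ℝ)| * 2 ^ k) := by
    have := mul_le_mul_of_nonneg_left hx' hd0
    linarith
  exact mul_le_mul hup h5 (by positivity) (Real.exp_pos _).le

end Pool.Agent.Y57.HS.UD
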