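import Pool.Agent.Y57.HS.UnifD

/-!
# The maps `x ↦ x / 2`, `(3 x + d) / 2`, simultaneously for many `d`, at the integers obtained by few changes of digits:
the count
-/

set_option autoImplicit false

namespace Pool.Agent.Y57.HS.UD

open Finset Filter Polynomial
open Pool.Agent.Y927.GP Pool.Agent.H319R2 Pool.Agent.H319R2.M
open Pool.Agent.TH894.SM (change change_eq change_lt)
open Pool.Agent.Y57.HS

theorem inv_mod (d : ℤ) (hd : d % 2 = 1) (x : ℤ) (k : ℕ) : ∃ x' : ℤ, 0 ≤ x' ∧ x' < 2 ^ k ∧ x ≡ d * x' [ZMOD 2 ^ k] := by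
  have hcop : IsCoprime d ((2 : ℤ) ^ k) := by
    apply IsCoprime.pow_right
    obtain ⟨e, he⟩ : ∃ e : ℤ, d = 2 * e + 1 := ⟨d / 2, by omega⟩
    exact ⟨1, -e, by rw [he]; ring⟩
  obtain ⟨u, v, huv⟩ := hcop
  have hp : (0 : ℤ) < 2 ^ k := by positivity
  refine ⟨(u * x) % 2 ^ k, Int.emod_nonneg _ hp.ne', Int.emod_lt_of_pos _ hp, ?_⟩
  have h1 : d * ((u * x) % 2 ^ k) ≡ d * (u * x) [ZMOD 2 ^ k] := (Int.mod_modEq _ _).mul_left d
  refine Int.ModEq.symm (h1.trans ?_)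
  rw [Int.modEq_iff_dvd]
  refine ⟨v * x, ?_⟩
  linear_combination (-x) * huv

theorem mu_val : mu g (Mo.CC 2) (fun _ => 1 / ((2 : ℕ) : ℝ)) = 1 / 2 * Real.log 3 - Real.log 2 := by
  have h := Mo.mu_eq (le_refl 2) D
  have : mu g (Mo.CC 2) (fun _ => 1 / ((2 : ℕ) : ℝ)) = mu (Leigh.gm D) (Mo.CC 2) (fun _ => 1 / ((2 : ℕ) : ℝ)) := rfl
  rw [this, h]
  push_cast
  norm_num

/-- **The count.** -/
theorem main (q : ℕ) (hq : 2 ≤ q) (hq2 : Odd q) : ∃ c c₂ κ δ : ℝ, 0 < c ∧ 0 < c₂ ∧ 0 < κ ∧ 0 < δ ∧ ∃ s₀ : ℕ, ∀ s K : ℕ,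
    s₀ ≤ s → 2 * s ≤ K → ∀ N : ℕ, N < q ^ K → ∀ φ : ℕ → ℕ, (∀ j, φ j < q ∧ φ j ≠ N / q ^ j % q) →
    ∀ A ⊆ powersetCard s (range K), (∀ S ∈ A, ¬ (Real.exp (c * s) ≤ ((change q K N φ S : ℕ) : ℝ) ∧
      ∀ d : ℤ, d % 2 = 1 → |(d : ℝ)| ≤ Real.exp (κ * s) → ∃ k : ℕ, (k : ℝ) ≤ c * s / Real.log 2 ∧
        |(((T d)^[k] ((change q K N φ S : ℕ) : ℤ) : ℤ) : ℝ)| ≤ Real.exp (-(c₂ * s)) * ((change q K N φ S : ℕ) : ℝ))) →
    (A.card : ℝ) ≤ Real.exp (-(δ * s)) * (K.choose s : ℝ) := by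
  classical
  have hl2 : 0 < Real.log 2 := Real.log_pos (by norm_num)
  have hC := Mo.cls (m := 3) (r := fun _ => (-1 : ℤ)) (le_refl 2)
  obtain ⟨μ, hμdef⟩ : ∃ μ, μ = mu g (Mo.CC 2) (fun _ => 1 / ((2 : ℕ) : ℝ)) := ⟨_, rfl⟩
  have hμv : μ = 1 / 2 * Real.log 3 - Real.log 2 := by rw [hμdef, mu_val]
  have hμ : μ < 0 := by
    have h2 : Real.log 3 < 2 * Real.log 2 := by
      have : (2 : ℝ) * Real.log 2 = Real.log 4 := by
        rw [show (4 : ℝ) = 2 ^ 2 by norm_num, Real.log_pow]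
        norm_num
      rw [this]
      exact Real.log_lt_log (by norm_num) (by norm_num)
    rw [hμv]
    linarith
  have hμ2 : -μ ≤ Real.log 2 := by
    have : 0 < Real.log 3 := Real.log_pos (by norm_num)
    rw [hμv]
    linarith
  obtain ⟨η, hη⟩ : ∃ η, η = -μ / 8 := ⟨_, rfl⟩
  have hη0 : 0 < η := by rw [hη]; linarith
  obtain ⟨c₅, K₂, hc₅, hK₂, hclass⟩ := card_classes (Leigh.gm_fac D) (Leigh.gm_cls D hC) hη0
  have hclass' : ∀ k : ℕ, ((((Ico (0 : ℤ) (2 ^ k)).filter (fun v => Unb g μ η k v)).card : ℕ) : ℝ) ≤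
      K₂ * ((k + 1) * ((2 : ℝ) ^ k * Real.exp (-(c₅ * k)))) := by
    intro k
    have h := hclass k ((Ico (0 : ℤ) (2 ^ k)).filter (fun v => Unb g μ η k v)) (by
      intro v hv
      rw [mem_filter, mem_Ico] at hv
      refine ⟨v, Mo.mem_S (le_refl 2) v, ?_, ?_⟩
      · have h1 := hv.2
        rw [hμdef] at h1
        exact h1
      · exact (Int.emod_eq_of_lt hv.1.1 hv.1.2).symm)
    exact h
  obtain ⟨cL, hcL, x₀, hlaw⟩ := law q hq (c₅ / (4 * Real.log 2)) (by positivity)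
  have hX : (1 : ℕ) ≤ (X : ℤ[X]).natDegree := by rw [natDegree_X]
  obtain ⟨C3, hC3, hlow⟩ := few_low q (by omega) hX
  obtain ⟨c, hc⟩ : ∃ c : ℝ, c = min cL (Real.log 2 / 8) := ⟨_, rfl⟩
  have hc0 : 0 < c := by rw [hc]; exact lt_min hcL (by positivity)
  have hccL : c ≤ cL := by rw [hc]; exact min_le_left _ _
  have hc8 : c ≤ Real.log 2 / 8 := by rw [hc]; exact min_le_right _ _
  obtain ⟨κ, hκ⟩ : ∃ κ : ℝ, κ = min (c₅ * c / (8 * Real.log 2)) (c / 2) := ⟨_, rfl⟩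
  have hκ0 : 0 < κ := by rw [hκ]; exact lt_min (by positivity) (by positivity)
  have hκ1 : κ ≤ c₅ * c / (8 * Real.log 2) := by rw [hκ]; exact min_le_left _ _
  have hκ2 : κ ≤ c / 2 := by rw [hκ]; exact min_le_right _ _
  obtain ⟨c₂, hc₂⟩ : ∃ c₂ : ℝ, c₂ = -μ * c / (2 * Real.log 2) := ⟨_, rfl⟩
  have hc₂0 : 0 < c₂ := by
    rw [hc₂]
    apply div_pos (mul_pos (by linarith) hc0) (by positivity)
  obtain ⟨β, hβ⟩ : ∃ β : ℝ, β = min (c₅ * c / (8 * Real.log 2)) (Real.log 2 / 4) := ⟨_, rfl⟩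
  have hβ0 : 0 < β := by rw [hβ]; exact lt_min (by positivity) (by positivity)
  have hβ1 : β ≤ c₅ * c / (8 * Real.log 2) := by rw [hβ]; exact min_le_left _ _
  have hβ2 : β ≤ Real.log 2 / 4 := by rw [hβ]; exact min_le_right _ _
  -- the conditions for large `s`
  have hT1 : Tendsto (fun s : ℕ => (s : ℝ)) atTop atTop := tendsto_natCast_atTop_atTop
  have hlin : ∀ a : ℝ, 0 < a → ∀ b : ℝ, ∀ᶠ s : ℕ in atTop, b ≤ a * (s : ℝ) := fun a ha b =>
    (hT1.const_mul_atTop ha).eventually (eventually_ge_atTop b)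
  have hexp : ∀ a : ℝ, 0 < a → ∀ b : ℝ, ∀ᶠ s : ℕ in atTop, b ≤ Real.exp (a * (s : ℝ)) := fun a ha b =>
    (Real.tendsto_exp_atTop.comp (hT1.const_mul_atTop ha)).eventually (eventually_ge_atTop b)
  have hpoly : ∀ a : ℝ, 0 < a → ∀ b : ℝ, ∀ᶠ k : ℕ in atTop, b * ((k : ℝ) + 1) ≤ Real.exp (a * (k : ℝ)) := by
    intro a ha b
    have h1 : Tendsto (fun y : ℝ => Real.exp (a * y) / y ^ 1) atTop atTop :=
      tendsto_exp_mul_div_rpow_atTop 1 a ha |>.congr' (by
        filter_upwards [eventually_gt_atTop 0] with y hy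
        rw [Real.rpow_one, pow_one])
    filter_upwards [(h1.comp hT1).eventually (eventually_ge_atTop (2 * |b|)), eventually_ge_atTop 1] with k hk hk1
    have h3 : (1 : ℝ) ≤ k := by exact_mod_cast hk1
    simp only [Function.comp_apply, pow_one] at hk
    rw [le_div_iff₀ (by linarith)] at hk
    have h4 : b * ((k : ℝ) + 1) ≤ |b| * ((k : ℝ) + 1) := mul_le_mul_of_nonneg_right (le_abs_self b) (by linarith)
    have h5 : |b| * ((k : ℝ) + 1) ≤ |b| * (2 * k) := mul_le_mul_of_nonneg_left (by linarith) (abs_nonneg b)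
    linarith
  obtain ⟨k₁, hk₁⟩ := eventually_atTop.1 ((hpoly (Real.log 2) hl2 g.R).and (hpoly (c₅ / 4) (by positivity) (3 * K₂)))
  have hev : ∀ᶠ s : ℕ in atTop, Real.log 2 * (k₁ + 1) ≤ c * s ∧ c₅ / 4 ≤ c₅ * c / (8 * Real.log 2) * s ∧ Real.log 2 ≤ c / 2 * s ∧
      Real.log 4 - 7 / 8 * μ ≤ c₂ / 2 * s ∧ Real.log 2 * (Real.log (x₀ + 1) + 1) ≤ c * Real.log 2 * s - Real.log 2 * Real.log 2 ∧
      C3 + Real.exp (c₅ / 4) ≤ Real.exp (β / 2 * s) := by
    filter_upwards [hlin c hc0 _, hlin _ (show 0 < c₅ * c / (8 * Real.log 2) by positivity) _, hlin (c / 2) (by positivity) _,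
      hlin (c₂ / 2) (by positivity) _, hlin (c * Real.log 2) (by positivity) (Real.log 2 * (Real.log (x₀ + 1) + 1) + Real.log 2 * Real.log 2),
      hexp (β / 2) (by positivity) _] with s a1 a2 a3 a4 a5 a6
    exact ⟨a1, a2, a3, a4, by linarith, a6⟩
  obtain ⟨s₀, hs₀⟩ := eventually_atTop.1 hev
  refine ⟨c, c₂, κ, β / 2, hc0, hc₂0, hκ0, by positivity, s₀, fun s K hs hsK N hN φ hφ A hA hbad => ?_⟩
  obtain ⟨b1, b2, b3, b4, b5, b6⟩ := hs₀ s hs
  have hs0 : (0 : ℝ) ≤ s := Nat.cast_nonneg _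
  have hch0 : (0 : ℝ) ≤ (K.choose s : ℝ) := Nat.cast_nonneg _
  obtain ⟨k, hk⟩ : ∃ k, k = ⌊c * s / Real.log 2⌋₊ := ⟨_, rfl⟩
  have hcs : 0 ≤ c * s / Real.log 2 := by positivity
  have hk1 : (k : ℝ) ≤ c * s / Real.log 2 := by rw [hk]; exact Nat.floor_le hcs
  have hk2 : c * s / Real.log 2 < k + 1 := by rw [hk]; exact Nat.lt_floor_add_one _
  have hk1' : (k : ℝ) * Real.log 2 ≤ c * s := by rwa [le_div_iff₀ hl2] at hk1
  have hk2' : c * s < (k + 1) * Real.log 2 := by rwa [div_lt_iff₀ hl2] at hk2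
  have hkk₁ : k₁ ≤ k := by
    have h1 : (k₁ : ℝ) + 1 < k + 1 := by
      have := lt_of_le_of_lt b1 hk2'
      rw [mul_comm] at this
      exact lt_of_mul_lt_mul_right this hl2.le
    have h2 : (k₁ : ℝ) < k := by linarith
    exact le_of_lt (by exact_mod_cast h2)
  obtain ⟨hRk, hKk⟩ := hk₁ k hkk₁
  have hk0 : (0 : ℝ) ≤ k := Nat.cast_nonneg _
  have h2k : (2 : ℝ) ^ k = Real.exp (k * Real.log 2) := by rw [Real.exp_nat_mul, Real.exp_log (by norm_num)]
  have h2k1 : (1 : ℝ) ≤ 2 ^ k := one_le_pow₀ (by norm_num)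
  obtain ⟨M, hM⟩ : ∃ M : ℕ, M = ⌊Real.exp (c₅ / 4 * k)⌋₊ := ⟨_, rfl⟩
  have hMle : (M : ℝ) ≤ Real.exp (c₅ / 4 * k) := by rw [hM]; exact Nat.floor_le (by positivity)
  have hE1 : 1 ≤ Real.exp (c₅ / 4 * k) := Real.one_le_exp (by positivity)
  have hκM : Real.exp (κ * s) ≤ Real.exp (c₅ / 4 * k) := by
    apply Real.exp_le_exp.2
    have h1 : κ * s ≤ c₅ * c / (8 * Real.log 2) * s := mul_le_mul_of_nonneg_right hκ1 hs0
    have h2 : c₅ / 4 * (c * s / Real.log 2) ≤ c₅ / 4 * (k + 1) := mul_le_mul_of_nonneg_left hk2.le (by positivity)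
    have h3 : c₅ / 4 * (c * s / Real.log 2) = 2 * (c₅ * c / (8 * Real.log 2) * s) := by ring
    linarith
  have hκ2k : Real.exp (κ * s) ≤ 2 ^ k := by
    rw [h2k]
    apply Real.exp_le_exp.2
    have h1 : κ * s ≤ c / 2 * s := mul_le_mul_of_nonneg_right hκ2 hs0
    linarith
  obtain ⟨V, hV⟩ : ∃ V : Finset ℤ, V = (Ico (0 : ℤ) (2 ^ k)).filter (fun v => Unb g μ η k v) := ⟨_, rfl⟩
  obtain ⟨R, hR⟩ : ∃ R : Finset ℕ, R = ((Icc (-(M : ℤ)) M) ×ˢ V).image (fun z : ℤ × ℤ => (z.1 * z.2 % 2 ^ k).toNat) := ⟨_, rfl⟩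
  have hpz : (0 : ℤ) < 2 ^ k := by positivity
  have hRsub : R ⊆ range (2 ^ k) := by
    intro z hz
    rw [hR, mem_image] at hz
    obtain ⟨⟨d, v⟩, -, rfl⟩ := hz
    rw [mem_range]
    have h1 := Int.emod_nonneg (d * v) hpz.ne'
    have h2 := Int.emod_lt_of_pos (d * v) hpz
    have h3 : ((2 : ℤ) ^ k) = ((2 ^ k : ℕ) : ℤ) := by push_cast; ring
    rw [h3] at h2 h1 ⊢
    omega
  have hRcard : (R.card : ℝ) ≤ 3 * Real.exp (c₅ / 4 * k) * (K₂ * ((k + 1) * ((2 : ℝ) ^ k * Real.exp (-(c₅ * k))))) := by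
    have h1 : R.card ≤ (2 * M + 1) * V.card := by
      rw [hR]
      refine card_image_le.trans ?_
      rw [card_product, Int.card_Icc]
      apply Nat.mul_le_mul_right
      omega
    have h2 : (R.card : ℝ) ≤ (2 * M + 1) * V.card := by exact_mod_cast h1
    refine h2.trans ?_
    apply mul_le_mul _ _ (Nat.cast_nonneg _) (by positivity)
    · linarith
    · rw [hV]
      exact hclass' k
  obtain ⟨A1, hA1⟩ : ∃ A1 : Finset (Finset ℕ), A1 = A.filter (fun S => ((change q K N φ S : ℕ) : ℝ) < Real.exp (4 * (c * s))) := ⟨_, rfl⟩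
  have hsub : A ⊆ A1 ∪ (powersetCard s (range K)).filter (fun S => change q K N φ S % 2 ^ k ∈ R) := by
    intro S hS
    rw [mem_union]
    by_contra hcon
    rw [not_or, hA1, mem_filter, mem_filter] at hcon
    obtain ⟨hc1, hc2⟩ := hcon
    have hbig : Real.exp (4 * (c * s)) ≤ ((change q K N φ S : ℕ) : ℝ) := by
      by_contra h
      exact hc1 ⟨hS, not_le.1 h⟩
    have hnR : change q K N φ S % 2 ^ k ∉ R := fun h => hc2 ⟨hA hS, h⟩
    apply hbad S hS
    obtain ⟨n, hn⟩ : ∃ n, n = change q K N φ S := ⟨_, rfl⟩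
    rw [← hn] at hbig hnR ⊢
    have hcs0 : 0 ≤ c * s := by positivity
    refine ⟨(Real.exp_le_exp.2 (by linarith)).trans hbig, fun d hd hdM => ⟨k, hk1, ?_⟩⟩
    obtain ⟨x', hx0, hx1, hx2⟩ := inv_mod d hd (n : ℤ) k
    have hU : ¬ Unb g μ η k x' := by
      intro hU
      apply hnR
      rw [hR, mem_image]
      refine ⟨(d, x'), ?_, ?_⟩
      · rw [mem_product, mem_Icc]
        have h1 : |(d : ℝ)| ≤ Real.exp (c₅ / 4 * k) := hdM.trans hκM
        have h2 : d.natAbs ≤ M := by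
          rw [hM]
          apply Nat.le_floor
          rw [Nat.cast_natAbs, Int.cast_abs]
          exact h1
        refine ⟨⟨by show -(M : ℤ) ≤ d; omega, by show d ≤ (M : ℤ); omega⟩, ?_⟩
        rw [hV, mem_filter, mem_Ico]
        exact ⟨⟨hx0, hx1⟩, hU⟩
      · have h1 : (d * x') % 2 ^ k = (n : ℤ) % 2 ^ k := hx2.symm
        show ((d * x') % 2 ^ k).toNat = n % 2 ^ k
        rw [h1]
        have h3 : ((n : ℤ) % 2 ^ k) = ((n % 2 ^ k : ℕ) : ℤ) := by push_cast; ring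
        rw [h3, Int.toNat_natCast]
    have hsz := size d hd (n : ℤ) x' k hx2 (by
      rw [abs_of_nonneg (by exact_mod_cast hx0)]
      have : (x' : ℝ) < ((2 ^ k : ℤ) : ℝ) := by exact_mod_cast hx1
      push_cast at this
      exact this.le) hμ.le hU
    rw [Int.cast_natCast, abs_of_nonneg (Nat.cast_nonneg n : (0 : ℝ) ≤ (n : ℝ))] at hsz
    refine hsz.trans ?_
    have hd2 : |(d : ℝ)| ≤ 2 ^ k := hdM.trans hκ2k
    have hn4 : ((2 : ℝ) ^ k) ^ 4 ≤ n := by
      refine le_trans ?_ hbig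
      rw [h2k, ← Real.exp_nat_mul]
      apply Real.exp_le_exp.2
      push_cast
      linarith
    have hn0 : (0 : ℝ) ≤ n := Nat.cast_nonneg _
    have hd0 : 0 ≤ |(d : ℝ)| := abs_nonneg _
    have e1 : |(d : ℝ)| * 2 ^ k ≤ n := by
      calc |(d : ℝ)| * 2 ^ k ≤ 2 ^ k * 2 ^ k := mul_le_mul_of_nonneg_right hd2 (by positivity)
        _ = ((2 : ℝ) ^ k) ^ 2 := by ring
        _ ≤ ((2 : ℝ) ^ k) ^ 4 := pow_le_pow_right₀ h2k1 (by norm_num)
        _ ≤ n := hn4
    have e2 : Real.exp (2 * (η * k)) ≤ 2 ^ k := by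
      rw [h2k]
      apply Real.exp_le_exp.2
      rw [hη]
      have : 0 ≤ (Real.log 2 + μ) * k := mul_nonneg (by linarith) hk0
      nlinarith
    have e3 : g.R * (k : ℝ) ≤ 2 ^ k := by
      rw [h2k, mul_comm (k : ℝ)]
      have := g.R_nonneg
      nlinarith
    have e4 : |(d : ℝ)| * (g.R * (k * Real.exp (2 * (η * k)))) ≤ (((2 : ℝ) ^ k) ^ 4) / 2 ^ k := by
      rw [le_div_iff₀ (by positivity)]
      have hR0 := g.R_nonneg
      have h1 : g.R * (k * Real.exp (2 * (η * k))) ≤ 2 ^ k * 2 ^ k := by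
        calc g.R * (k * Real.exp (2 * (η * k))) = (g.R * k) * Real.exp (2 * (η * k)) := by ring
          _ ≤ 2 ^ k * 2 ^ k := mul_le_mul e3 e2 (Real.exp_pos _).le (by positivity)
      calc |(d : ℝ)| * (g.R * (k * Real.exp (2 * (η * k)))) * 2 ^ k ≤ 2 ^ k * (2 ^ k * 2 ^ k) * 2 ^ k := by
            apply mul_le_mul_of_nonneg_right _ (by positivity)
            exact mul_le_mul hd2 h1 (by positivity) (by positivity)
        _ = ((2 : ℝ) ^ k) ^ 4 := by ring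
    have e5 : (((2 : ℝ) ^ k) ^ 4) / 2 ^ k ≤ Real.exp (k * μ + η * k) * n := by
      rw [div_eq_mul_inv, mul_comm]
      apply mul_le_mul _ hn4 (by positivity) (Real.exp_pos _).le
      rw [h2k, ← Real.exp_neg]
      apply Real.exp_le_exp.2
      have : 0 ≤ (Real.log 2 + μ) * k := mul_nonneg (by linarith) hk0
      have h3 : 0 ≤ η * k := by positivity
      nlinarith
    have e6 : Real.exp (k * μ + η * k) * (n + 2 * (|(d : ℝ)| * 2 ^ k)) + |(d : ℝ)| * (g.R * (k * Real.exp (2 * (η * k)))) ≤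
        4 * Real.exp (k * μ + η * k) * n := by
      have h1 : Real.exp (k * μ + η * k) * (n + 2 * (|(d : ℝ)| * 2 ^ k)) ≤ Real.exp (k * μ + η * k) * (3 * n) := by
        apply mul_le_mul_of_nonneg_left _ (Real.exp_pos _).le
        linarith
      linarith [e4.trans e5]
    refine e6.trans ?_
    apply mul_le_mul_of_nonneg_right _ hn0
    have h4 : (4 : ℝ) = Real.exp (Real.log 4) := (Real.exp_log (by norm_num)).symm
    rw [h4, ← Real.exp_add]
    apply Real.exp_le_exp.2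
    have h5 : (k : ℝ) * μ + η * k = 7 / 8 * μ * k := by rw [hη]; ring
    rw [h5]
    have h6 : 7 / 8 * μ * (k + 1) ≤ 7 / 8 * μ * (c * s / Real.log 2) :=
      mul_le_mul_of_nonpos_left hk2.le (by linarith)
    have h7 : 7 / 8 * μ * (c * s / Real.log 2) = -(7 / 4 * (c₂ * s)) := by
      rw [hc₂]
      field_simp
      ring
    have h8 : 0 ≤ c₂ * s := by positivity
    linarith
  -- the counts
  have hA1c : (A1.card : ℝ) ≤ C3 * Real.exp (-(β * s)) * (K.choose s : ℝ) := by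
    have hZ : 1 ≤ Real.exp (4 * (c * s)) := Real.one_le_exp (by positivity)
    have h1 := hlow (Real.exp (4 * (c * s))) hZ s K N φ hφ A1 (by
      rw [hA1]
      exact (filter_subset _ _).trans hA) (by
      intro S hS
      rw [hA1, mem_filter] at hS
      rw [eval_X, Int.cast_natCast, abs_of_nonneg (Nat.cast_nonneg _)]
      exact hS.2)
    rw [natDegree_X, Nat.cast_one, div_one, Real.rpow_one] at h1
    refine h1.trans ?_
    rw [mul_assoc]
    apply mul_le_mul_of_nonneg_left _ hC3.le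
    have h2 := two_pow_le s K hsK
    have h3 : Real.exp (4 * (c * s)) ≤ Real.exp (-(β * s)) * 2 ^ s := by
      rw [show (2 : ℝ) ^ s = Real.exp (s * Real.log 2) by rw [Real.exp_nat_mul, Real.exp_log (by norm_num)], ← Real.exp_add]
      apply Real.exp_le_exp.2
      nlinarith
    exact h3.trans (mul_le_mul_of_nonneg_left h2 (Real.exp_pos _).le)
  have hA2c : (((powersetCard s (range K)).filter (fun S => change q K N φ S % 2 ^ k ∈ R)).card : ℝ) ≤
      Real.exp (c₅ / 4) * Real.exp (-(β * s)) * (K.choose s : ℝ) := by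
    have hcast : (((2 ^ k : ℕ)) : ℝ) = (2 : ℝ) ^ k := by push_cast; ring
    have h1 := hlaw s K (2 ^ k) hsK (by
      have h2 : Real.log (x₀ + 1) ≤ k * Real.log 2 := by
        have h3 : Real.log 2 * (Real.log (x₀ + 1) + 1) ≤ Real.log 2 * (k * Real.log 2) := by nlinarith
        have := le_of_mul_le_mul_left h3 hl2
        linarith
      rw [← Real.log_pow, Real.log_le_log_iff (by positivity) (by positivity)] at h2
      have h3 : ((x₀ + 1 : ℕ) : ℝ) ≤ ((2 ^ k : ℕ) : ℝ) := by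
        push_cast
        exact h2
      have h4 : x₀ + 1 ≤ 2 ^ k := by exact_mod_cast h3
      omega) (by
      rw [hcast, Real.log_pow]
      exact hk1'.trans (mul_le_mul_of_nonneg_right hccL hs0)) (Nat.Coprime.pow_right _ ((Nat.coprime_two_right).2 hq2)) N hN φ hφ R hRsub
    refine h1.trans ?_
    apply mul_le_mul_of_nonneg_right _ hch0
    rw [hcast]
    have h2 : ((2 : ℝ) ^ k) ^ (c₅ / (4 * Real.log 2)) = Real.exp (c₅ / 4 * k) := by
      rw [h2k, ← Real.exp_mul]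
      congr 1
      field_simp
    rw [h2]
    have h3 : (R.card : ℝ) / 2 ^ k ≤ 3 * K₂ * (k + 1) * (Real.exp (c₅ / 4 * k) * Real.exp (-(c₅ * k))) := by
      rw [div_le_iff₀ (by positivity)]
      refine hRcard.trans (le_of_eq ?_)
      ring
    calc Real.exp (c₅ / 4 * k) * ((R.card : ℝ) / 2 ^ k)
        ≤ Real.exp (c₅ / 4 * k) * (Real.exp (c₅ / 4 * k) * (Real.exp (c₅ / 4 * k) * Real.exp (-(c₅ * k)))) := by
          apply mul_le_mul_of_nonneg_left _ (Real.exp_pos _).le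
          refine h3.trans ?_
          exact mul_le_mul_of_nonneg_right hKk (by positivity)
      _ = Real.exp (-(c₅ / 4 * k)) := by
          rw [← Real.exp_add, ← Real.exp_add, ← Real.exp_add]
          congr 1
          ring
      _ ≤ Real.exp (c₅ / 4) * Real.exp (-(β * s)) := by
          rw [← Real.exp_add]
          apply Real.exp_le_exp.2
          have h4 : c₅ / 4 * (c * s / Real.log 2) ≤ c₅ / 4 * (k + 1) := mul_le_mul_of_nonneg_left hk2.le (by positivity)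
          have h5 : c₅ / 4 * (c * s / Real.log 2) = 2 * (c₅ * c / (8 * Real.log 2) * s) := by ring
          have h6 : β * s ≤ c₅ * c / (8 * Real.log 2) * s := mul_le_mul_of_nonneg_right hβ1 hs0
          have h7 : 0 ≤ β * s := by positivity
          linarith
  have hcard : (A.card : ℝ) ≤ A1.card + (((powersetCard s (range K)).filter (fun S => change q K N φ S % 2 ^ k ∈ R)).card : ℝ) := by
    exact_mod_cast (card_le_card hsub).trans (card_union_le _ _)
  calc (A.card : ℝ) ≤ C3 * Real.exp (-(β * s)) * (K.choose s : ℝ) + Real.exp (c₅ / 4) * Real.exp (-(β * s)) * (K.choose s : ℝ) :=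
        hcard.trans (add_le_add hA1c hA2c)
    _ = (C3 + Real.exp (c₅ / 4)) * (Real.exp (-(β * s)) * (K.choose s : ℝ)) := by ring
    _ ≤ Real.exp (β / 2 * s) * (Real.exp (-(β * s)) * (K.choose s : ℝ)) := mul_le_mul_of_nonneg_right b6 (by positivity)
    _ = Real.exp (-(β / 2 * s)) * (K.choose s : ℝ) := by
        rw [← mul_assoc, ← Real.exp_add]
        congr 2
        ring

end Pool.Agent.Y57.HS.UD
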